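import Mathlib

/-!
Matching lemmas for MP_884cd1_co (disjoint transversals in row-Latin rectangles).
-/

namespace Pool.Agent.DisjTrans

open Finset

/-- Robust matching lemma: if every slot is blocked for at most `b1` cells, every cell is blocked
for at most `b2` slots, there are at least `b1 + b2` cells and at least as many cells as slots,
then the slots can be matched injectively into cells along non-blocked pairs. -/
theorem exists_injOn_avoid {X C : Type*} [DecidableEq X] [DecidableEq C] [Nonempty C]
    (S : Finset X) (D : Finset C) (blk : X → C → Prop) [∀ x c, Decidable (blk x c)] (b1 b2 : ℕ)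
    (h1 : ∀ x ∈ S, (D.filter (fun c => blk x c)).card ≤ b1)
    (h2 : ∀ c ∈ D, (S.filter (fun x => blk x c)).card ≤ b2)
    (hS : S.card ≤ D.card) (hb : b1 + b2 ≤ D.card) :
    ∃ f : X → C, (∀ x ∈ S, f x ∈ D ∧ ¬ blk x (f x)) ∧ Set.InjOn f S := by
  classical
  have key : ∀ s : Finset S, s.card ≤
      (s.biUnion (fun x : S => D.filter (fun c => ¬ blk x.1 c))).card := by
    intro s
    rcases s.eq_empty_or_nonempty with rfl | ⟨x0, hx0⟩
    · simp
    by_cases hs : b2 < s.card
    · have hall : s.biUnion (fun x : S => D.filter (fun c => ¬ blk x.1 c)) = D := by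
        apply Finset.Subset.antisymm
        · intro c hc
          simp only [mem_biUnion, mem_filter] at hc
          obtain ⟨x, -, hc, -⟩ := hc
          exact hc
        · intro c hc
          by_contra hcon
          have hblk : ∀ x ∈ s, blk x.1 c := by
            intro x hx
            by_contra hb
            apply hcon
            simp only [mem_biUnion, mem_filter]
            exact ⟨x, hx, hc, hb⟩
          have : s.card ≤ (S.filter (fun x => blk x c)).card := by
            rw [← Finset.card_map (Function.Embedding.subtype _)]
            apply Finset.card_le_card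
            intro y hy
            simp only [mem_map, Function.Embedding.coe_subtype] at hy
            obtain ⟨x, hx, rfl⟩ := hy
            rw [mem_filter]
            exact ⟨x.2, hblk x hx⟩
          have := h2 c hc
          omega
      rw [hall]
      calc s.card ≤ (Finset.univ : Finset S).card := Finset.card_le_univ s
        _ = S.card := by simp
        _ ≤ D.card := hS
    · have h3 : D.card - b1 ≤ (D.filter (fun c => ¬ blk x0.1 c)).card := by
        have := Finset.card_filter_add_card_filter_not (s := D) (fun c => blk x0.1 c)
        have := h1 x0.1 x0.2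
        omega
      have h4 : (D.filter (fun c => ¬ blk x0.1 c)).card ≤
          (s.biUnion (fun x : S => D.filter (fun c => ¬ blk x.1 c))).card := by
        apply Finset.card_le_card
        intro c hc
        rw [mem_biUnion]
        exact ⟨x0, hx0, hc⟩
      omega
  rw [Finset.all_card_le_biUnion_card_iff_exists_injective] at key
  obtain ⟨f, hf, hfm⟩ := key
  refine ⟨fun x => if hx : x ∈ S then f ⟨x, hx⟩ else Classical.arbitrary C, ?_, ?_⟩
  · intro x hx
    have := hfm ⟨x, hx⟩
    rw [mem_filter] at this
    simpa [hx] using this
  · intro x hx y hy hxy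
    have hx' : x ∈ S := hx
    have hy' : y ∈ S := hy
    simp only [hx', hy', dif_pos] at hxy
    have := hf hxy
    simpa using this

/-- In a square matrix over `ℕ` with all line sums `d` there is a generalised diagonal all of whose
entries are at least `N`, provided `|X|^2 (N-1) < d`. -/
theorem exists_heavy_perm {X : Type*} [Fintype X] [DecidableEq X] (M : X → X → ℕ) (d N : ℕ)
    (hrow : ∀ x, ∑ y, M x y = d) (hcol : ∀ y, ∑ x, M x y = d)
    (hN : (Fintype.card X) ^ 2 * (N - 1) < d) :
    ∃ σ : Equiv.Perm X, ∀ x, N ≤ M x (σ x) := by
  classical
  have key : ∀ s : Finset X, s.card ≤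
      (s.biUnion (fun x => Finset.univ.filter (fun y => N ≤ M x y))).card := by
    intro s
    by_contra hcon
    push Not at hcon
    set B := s.biUnion (fun x => Finset.univ.filter (fun y => N ≤ M x y)) with hB
    have h1 : ∑ x ∈ s, ∑ y, M x y = s.card * d := by
      rw [Finset.sum_congr rfl (fun x _ => hrow x)]
      simp
    have h2 : ∑ x ∈ s, ∑ y ∈ B, M x y ≤ B.card * d := by
      rw [Finset.sum_comm]
      calc ∑ y ∈ B, ∑ x ∈ s, M x y ≤ ∑ y ∈ B, d := by
            apply Finset.sum_le_sum
            intro y _
            rw [← hcol y]
            exact Finset.sum_le_sum_of_subset (Finset.subset_univ s)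
        _ = B.card * d := by simp
    have h3 : ∑ x ∈ s, ∑ y ∈ Bᶜ, M x y ≤ (Fintype.card X) ^ 2 * (N - 1) := by
      calc ∑ x ∈ s, ∑ y ∈ Bᶜ, M x y ≤ ∑ x ∈ s, ∑ y ∈ Bᶜ, (N - 1) := by
            apply Finset.sum_le_sum
            intro x hx
            apply Finset.sum_le_sum
            intro y hy
            rw [mem_compl] at hy
            by_contra hlt
            apply hy
            rw [hB, mem_biUnion]
            refine ⟨x, hx, ?_⟩
            rw [mem_filter]
            exact ⟨mem_univ _, by omega⟩
        _ = s.card * (Bᶜ.card * (N - 1)) := by simp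
        _ ≤ (Fintype.card X) * ((Fintype.card X) * (N - 1)) := by
            gcongr
            · exact Finset.card_le_univ s
            · exact Finset.card_le_univ _
        _ = (Fintype.card X) ^ 2 * (N - 1) := by ring
    have h4 : ∑ x ∈ s, ∑ y, M x y = ∑ x ∈ s, ∑ y ∈ B, M x y + ∑ x ∈ s, ∑ y ∈ Bᶜ, M x y := by
      rw [← Finset.sum_add_distrib]
      apply Finset.sum_congr rfl
      intro x _
      exact (Finset.sum_add_sum_compl B _).symm
    have h5 : s.card * d ≤ B.card * d + (Fintype.card X) ^ 2 * (N - 1) := by
      rw [← h1, h4]
      omega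
    have h6 : (B.card + 1) * d ≤ s.card * d := Nat.mul_le_mul_right _ hcon
    have h7 : (B.card + 1) * d = B.card * d + d := by ring
    omega
  rw [Finset.all_card_le_biUnion_card_iff_exists_injective] at key
  obtain ⟨f, hf, hfm⟩ := key
  have hbij : Function.Bijective f := Finite.injective_iff_bijective.mp hf
  refine ⟨Equiv.ofBijective f hbij, ?_⟩
  intro x
  have := hfm x
  rw [mem_filter] at this
  exact this.2

/-- A square matrix over `ℕ` with all line sums `d` is a sum of `d` permutation matrices. -/
theorem exists_perm_decomp {X : Type*} [Fintype X] [DecidableEq X] (d : ℕ) :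
    ∀ (M : X → X → ℕ), (∀ x, ∑ y, M x y = d) → (∀ y, ∑ x, M x y = d) →
    ∃ σ : Fin d → Equiv.Perm X, ∀ x y, M x y = (Finset.univ.filter (fun t => σ t x = y)).card := by
  classical
  induction d with
  | zero =>
    intro M hrow _
    refine ⟨fun t => Fin.elim0 t, ?_⟩
    intro x y
    have := hrow x
    rw [Finset.sum_eq_zero_iff] at this
    simp [this y (mem_univ y)]
  | succ d ih =>
    intro M hrow hcol
    obtain ⟨τ, hτ⟩ := exists_heavy_perm M (d + 1) 1 hrow hcol (by simp)
    set M' : X → X → ℕ := fun x y => if τ x = y then M x y - 1 else M x y with hM'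
    have hsum : ∀ x y, M x y = M' x y + if τ x = y then 1 else 0 := by
      intro x y
      simp only [hM']
      split_ifs with h
      · subst h
        have := hτ x
        omega
      · rfl
    have hrow' : ∀ x, ∑ y, M' x y = d := by
      intro x
      have h := hrow x
      rw [Finset.sum_congr rfl (fun y _ => hsum x y), Finset.sum_add_distrib] at h
      simp at h
      omega
    have hcol' : ∀ y, ∑ x, M' x y = d := by
      intro y
      have h := hcol y
      rw [Finset.sum_congr rfl (fun x _ => hsum x y), Finset.sum_add_distrib] at h
      have h2 : ∑ x, (if τ x = y then 1 else 0) = 1 := by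
        rw [Finset.sum_eq_single (τ.symm y)]
        · simp
        · intro b _ hb
          rw [if_neg]
          intro hh
          apply hb
          rw [← hh]
          simp
        · simp
      omega
    obtain ⟨σ, hσ⟩ := ih M' hrow' hcol'
    refine ⟨Fin.cons τ σ, ?_⟩
    intro x y
    rw [hsum x y, hσ x y]
    rw [Finset.card_filter, Finset.card_filter, Fin.sum_univ_succ]
    simp only [Fin.cons_zero, Fin.cons_succ]
    rw [add_comm]

end Pool.Agent.DisjTrans
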