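import Mathlib

/-!
The loop-erasure lemma for MP_884cd1_co.

Rows `r ∈ L` are viewed as partial injections `nxt r : J → Option J`.  All cells `(r, j)` with
`r ∈ L`, except at most `|J| - 1` in each column, can be partitioned into closed sets: sets of
cells in distinct rows and distinct columns, with distinct targets, such that every target is the
column of a cell of the set.  The idea: at each vertex of `J` stands one walker; processing a row
`r` moves the walker at `v` to `nxt r v`; whenever a walker closes a loop, the loop is cut off.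
-/

namespace Pool.Agent.DisjTrans

open Finset

set_option linter.unusedSectionVars false

variable {R J : Type*} [DecidableEq R] [DecidableEq J]

/-- `P` (last arc first) is a rainbow simple path from `s` to `v`. -/
inductive IsSeg (nxt : R → J → Option J) (s : J) : J → List (R × J) → Prop
  | nil : IsSeg nxt s s []
  | cons {v w : J} {r : R} {P : List (R × J)} (h : IsSeg nxt s w P) (h1 : nxt r w = some v)
      (h2 : v ∉ P.map Prod.snd) (h3 : v ≠ w) (h4 : r ∉ P.map Prod.fst) :
      IsSeg nxt s v ((r, w) :: P)

/-- A closed set of cells. -/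
structure Closed (nxt : R → J → Option J) (Z : Finset (R × J)) : Prop where
  rows : ∀ e ∈ Z, ∀ e' ∈ Z, e.1 = e'.1 → e = e'
  cols : ∀ e ∈ Z, ∀ e' ∈ Z, e.2 = e'.2 → e = e'
  tgt : ∀ e ∈ Z, ∀ e' ∈ Z, nxt e.1 e.2 = nxt e'.1 e'.2 → e = e'
  cl : ∀ e ∈ Z, ∀ i, nxt e.1 e.2 = some i → ∃ e' ∈ Z, e'.2 = i

theorem closed_empty (nxt : R → J → Option J) : Closed nxt (∅ : Finset (R × J)) :=
  ⟨by simp, by simp, by simp, by simp⟩

namespace IsSeg

variable {nxt : R → J → Option J} {s v : J} {P : List (R × J)}

theorem end_notMem (h : IsSeg nxt s v P) : v ∉ P.map Prod.snd := by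
  cases h with
  | nil => simp
  | cons h h1 h2 h3 h4 =>
    simp only [List.map_cons, List.mem_cons, not_or]
    exact ⟨h3, h2⟩

theorem start_mem (h : IsSeg nxt s v P) : (P = [] ∧ s = v) ∨ s ∈ P.map Prod.snd := by
  induction h with
  | nil => left; simp
  | cons h h1 h2 h3 h4 ih =>
    right
    rcases ih with ⟨_, rfl⟩ | ih
    · simp
    · simp only [List.map_cons, List.mem_cons]
      right
      exact ih

theorem rows_inj (h : IsSeg nxt s v P) : ∀ e ∈ P, ∀ e' ∈ P, e.1 = e'.1 → e = e' := by
  induction h with
  | nil => simp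
  | cons h h1 h2 h3 h4 ih =>
    intro e he e' he' hee
    rw [List.mem_cons] at he he'
    rcases he with rfl | he <;> rcases he' with rfl | he'
    · rfl
    · exact absurd (List.mem_map.mpr ⟨e', he', hee.symm⟩) h4
    · exact absurd (List.mem_map.mpr ⟨e, he, hee⟩) h4
    · exact ih e he e' he' hee

theorem cols_inj (h : IsSeg nxt s v P) : ∀ e ∈ P, ∀ e' ∈ P, e.2 = e'.2 → e = e' := by
  induction h with
  | nil => simp
  | cons h h1 h2 h3 h4 ih =>
    intro e he e' he' hee
    rw [List.mem_cons] at he he'
    rcases he with rfl | he <;> rcases he' with rfl | he'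
    · rfl
    · exact absurd (List.mem_map.mpr ⟨e', he', hee.symm⟩) h.end_notMem
    · exact absurd (List.mem_map.mpr ⟨e, he, hee⟩) h.end_notMem
    · exact ih e he e' he' hee

theorem target (h : IsSeg nxt s v P) : ∀ e ∈ P, ∃ i, nxt e.1 e.2 = some i ∧
    (i = v ∨ i ∈ P.map Prod.snd) ∧ i ≠ s := by
  induction h with
  | nil => simp
  | @cons v w r P h h1 h2 h3 h4 ih =>
    intro e he
    rw [List.mem_cons] at he
    rcases he with rfl | he
    · refine ⟨v, h1, Or.inl rfl, ?_⟩
      rintro rfl
      rcases h.start_mem with ⟨_, rfl⟩ | hh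
      · exact h3 rfl
      · exact h2 hh
    · obtain ⟨i, hi, hi2, hi3⟩ := ih e he
      refine ⟨i, hi, Or.inr ?_, hi3⟩
      simp only [List.map_cons, List.mem_cons]
      exact hi2

theorem tgt_inj (h : IsSeg nxt s v P) :
    ∀ e ∈ P, ∀ e' ∈ P, nxt e.1 e.2 = nxt e'.1 e'.2 → e = e' := by
  induction h with
  | nil => simp
  | @cons v w r P h h1 h2 h3 h4 ih =>
    intro e he e' he' hee
    rw [List.mem_cons] at he he'
    have key : ∀ e' ∈ P, nxt r w = nxt e'.1 e'.2 → False := by
      intro e' he' hee
      obtain ⟨i, hi, hi2, -⟩ := h.target e' he'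
      rw [h1, hi] at hee
      have : v = i := by simpa using hee
      subst this
      rcases hi2 with hi2 | hi2
      · exact h3 hi2
      · exact h2 hi2
    rcases he with rfl | he <;> rcases he' with rfl | he'
    · rfl
    · exact (key e' he' hee).elim
    · exact (key e he hee.symm).elim
    · exact ih e he e' he' hee

theorem split (h : IsSeg nxt s v P) (u : J) (hu : u ∈ P.map Prod.snd) :
    ∃ P1 P2, P = P1 ++ P2 ∧ IsSeg nxt u v P1 ∧ IsSeg nxt s u P2 := by
  induction h with
  | nil => simp at hu
  | @cons v w r P h h1 h2 h3 h4 ih =>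
    by_cases huw : u = w
    · subst huw
      refine ⟨[(r, u)], P, rfl, ?_, h⟩
      exact IsSeg.cons IsSeg.nil h1 (by simp) h3 (by simp)
    · simp only [List.map_cons, List.mem_cons] at hu
      rcases hu with hu | hu
      · exact absurd hu huw
      obtain ⟨P1, P2, rfl, hP1, hP2⟩ := ih hu
      refine ⟨(r, w) :: P1, P2, rfl, ?_, hP2⟩
      refine IsSeg.cons hP1 h1 ?_ h3 ?_
      · intro hh
        apply h2
        rw [List.map_append, List.mem_append]
        exact Or.inl hh
      · intro hh
        apply h4
        rw [List.map_append, List.mem_append]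
        exact Or.inl hh

theorem nodup (h : IsSeg nxt s v P) : P.Nodup := by
  induction h with
  | nil => simp
  | @cons v w r P h h1 h2 h3 h4 ih =>
    rw [List.nodup_cons]
    exact ⟨fun hh => h4 (List.mem_map.mpr ⟨_, hh, rfl⟩), ih⟩

theorem close_some (h : IsSeg nxt s v P) {r : R} (hr : r ∉ P.map Prod.fst)
    (hn : nxt r v = some s) : Closed nxt (insert (r, v) P.toFinset) := by
  refine ⟨?_, ?_, ?_, ?_⟩
  · intro e he e' he' hee
    rw [mem_insert, List.mem_toFinset] at he he'
    rcases he with rfl | he <;> rcases he' with rfl | he'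
    · rfl
    · exact absurd (List.mem_map.mpr ⟨e', he', hee.symm⟩) hr
    · exact absurd (List.mem_map.mpr ⟨e, he, hee⟩) hr
    · exact h.rows_inj e he e' he' hee
  · intro e he e' he' hee
    rw [mem_insert, List.mem_toFinset] at he he'
    rcases he with rfl | he <;> rcases he' with rfl | he'
    · rfl
    · exact absurd (List.mem_map.mpr ⟨e', he', hee.symm⟩) h.end_notMem
    · exact absurd (List.mem_map.mpr ⟨e, he, hee⟩) h.end_notMem
    · exact h.cols_inj e he e' he' hee
  · have key : ∀ e' ∈ P, nxt r v = nxt e'.1 e'.2 → False := by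
      intro e' he' hee
      obtain ⟨i, hi, -, hi3⟩ := h.target e' he'
      rw [hn, hi] at hee
      have : s = i := by simpa using hee
      exact hi3 this.symm
    intro e he e' he' hee
    rw [mem_insert, List.mem_toFinset] at he he'
    rcases he with rfl | he <;> rcases he' with rfl | he'
    · rfl
    · exact (key e' he' hee).elim
    · exact (key e he hee.symm).elim
    · exact h.tgt_inj e he e' he' hee
  · intro e he i hi
    rw [mem_insert, List.mem_toFinset] at he
    have aux : ∀ i, (i = v ∨ i ∈ P.map Prod.snd) →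
        ∃ e' ∈ insert (r, v) P.toFinset, e'.2 = i := by
      rintro i (rfl | hi)
      · exact ⟨(r, i), mem_insert_self _ _, rfl⟩
      · obtain ⟨e', he', rfl⟩ := List.mem_map.mp hi
        exact ⟨e', mem_insert_of_mem (List.mem_toFinset.mpr he'), rfl⟩
    rcases he with rfl | he
    · rw [hn] at hi
      have : s = i := by simpa using hi
      subst this
      apply aux
      rcases h.start_mem with ⟨_, hh⟩ | hh
      · exact Or.inl hh
      · exact Or.inr hh
    · obtain ⟨i', hi', hi2, -⟩ := h.target e he
      rw [hi'] at hi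
      have : i' = i := by simpa using hi
      subst this
      exact aux _ hi2

theorem close_none (h : IsSeg nxt s v P) {r : R} (hr : r ∉ P.map Prod.fst)
    (hn : nxt r v = none) : Closed nxt (insert (r, v) P.toFinset) := by
  refine ⟨?_, ?_, ?_, ?_⟩
  · intro e he e' he' hee
    rw [mem_insert, List.mem_toFinset] at he he'
    rcases he with rfl | he <;> rcases he' with rfl | he'
    · rfl
    · exact absurd (List.mem_map.mpr ⟨e', he', hee.symm⟩) hr
    · exact absurd (List.mem_map.mpr ⟨e, he, hee⟩) hr
    · exact h.rows_inj e he e' he' hee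
  · intro e he e' he' hee
    rw [mem_insert, List.mem_toFinset] at he he'
    rcases he with rfl | he <;> rcases he' with rfl | he'
    · rfl
    · exact absurd (List.mem_map.mpr ⟨e', he', hee.symm⟩) h.end_notMem
    · exact absurd (List.mem_map.mpr ⟨e, he, hee⟩) h.end_notMem
    · exact h.cols_inj e he e' he' hee
  · have key : ∀ e' ∈ P, nxt r v = nxt e'.1 e'.2 → False := by
      intro e' he' hee
      obtain ⟨i, hi, -, hi3⟩ := h.target e' he'
      rw [hn, hi] at hee
      simp at hee
    intro e he e' he' hee
    rw [mem_insert, List.mem_toFinset] at he he'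
    rcases he with rfl | he <;> rcases he' with rfl | he'
    · rfl
    · exact (key e' he' hee).elim
    · exact (key e he hee.symm).elim
    · exact h.tgt_inj e he e' he' hee
  · intro e he i hi
    rw [mem_insert, List.mem_toFinset] at he
    have aux : ∀ i, (i = v ∨ i ∈ P.map Prod.snd) →
        ∃ e' ∈ insert (r, v) P.toFinset, e'.2 = i := by
      rintro i (rfl | hi)
      · exact ⟨(r, i), mem_insert_self _ _, rfl⟩
      · obtain ⟨e', he', rfl⟩ := List.mem_map.mp hi
        exact ⟨e', mem_insert_of_mem (List.mem_toFinset.mpr he'), rfl⟩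
    rcases he with rfl | he
    · rw [hn] at hi
      simp at hi
    · obtain ⟨i', hi', hi2, -⟩ := h.target e he
      rw [hi'] at hi
      have : i' = i := by simpa using hi
      subst this
      exact aux _ hi2

/-- One step of a walker. -/
theorem step (h : IsSeg nxt s v P) {r : R} (hr : r ∉ P.map Prod.fst) :
    ∃ (Q : List (R × J)) (Z : Finset (R × J)), (∀ w, nxt r v = some w → ∃ s', IsSeg nxt s' w Q) ∧
      (nxt r v = none → Q = []) ∧ Closed nxt Z ∧ (∀ e, (e ∈ Z ∨ e ∈ Q) ↔ (e = (r, v) ∨ e ∈ P)) ∧
      (∀ e ∈ Z, e ∉ Q) := by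
  rcases hn : nxt r v with _ | w
  · refine ⟨[], insert (r, v) P.toFinset, by simp, by simp, h.close_none hr hn, ?_, by simp⟩
    intro e
    simp
  · by_cases hw : w = v
    · subst hw
      refine ⟨P, insert (r, w) (([] : List (R × J)).toFinset), ?_, by simp, ?_, ?_, ?_⟩
      · intro w' hw'
        have : w = w' := by simpa using hw'
        subst this
        exact ⟨s, h⟩
      · exact (IsSeg.nil (nxt := nxt) (s := w)).close_some (by simp) hn
      · intro e
        simp
      · intro e he
        simp only [List.toFinset_nil, insert_empty_eq, mem_singleton] at he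
        subst he
        intro hh
        exact hr (List.mem_map.mpr ⟨_, hh, rfl⟩)
    · by_cases hwP : w ∈ P.map Prod.snd
      · obtain ⟨P1, P2, rfl, hP1, hP2⟩ := h.split w hwP
        have hr1 : r ∉ P1.map Prod.fst := by
          intro hh
          apply hr
          rw [List.map_append, List.mem_append]
          exact Or.inl hh
        have hr2 : r ∉ P2.map Prod.fst := by
          intro hh
          apply hr
          rw [List.map_append, List.mem_append]
          exact Or.inr hh
        refine ⟨P2, insert (r, v) P1.toFinset, ?_, by simp, hP1.close_some hr1 hn, ?_, ?_⟩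
        · intro w' hw'
          have : w = w' := by simpa using hw'
          subst this
          exact ⟨s, hP2⟩
        · intro e
          simp only [mem_insert, List.mem_toFinset, List.mem_append]
          tauto
        · intro e he he2
          rw [mem_insert, List.mem_toFinset] at he
          rcases he with rfl | he
          · exact hr2 (List.mem_map.mpr ⟨_, he2, rfl⟩)
          · -- `e` in both parts contradicts the distinctness of the columns
            exact (List.disjoint_of_nodup_append h.nodup) he he2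
      · refine ⟨(r, v) :: P, ∅, ?_, by simp, closed_empty nxt, ?_, by simp⟩
        · intro w' hw'
          have : w = w' := by simpa using hw'
          subst this
          exact ⟨s, IsSeg.cons h hn hwP hw hr⟩
        · intro e
          simp

end IsSeg

/-- The loop-erasure lemma. -/
theorem walkers (nxt : R → J → Option J) (L : Finset R)
    (hinj : ∀ r ∈ L, ∀ v v' i, nxt r v = some i → nxt r v' = some i → v = v') :
    ∃ (Z : R → J → Finset (R × J)) (P : J → List (R × J)),
      (∀ v, ∃ s, IsSeg nxt s v (P v)) ∧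
      (∀ r v, Closed nxt (Z r v)) ∧
      (∀ r v, ∀ e ∈ Z r v, r ∈ L) ∧
      (∀ r v, ∀ e ∈ Z r v, e.1 ∈ L) ∧
      (∀ v, ∀ e ∈ P v, e.1 ∈ L) ∧
      (∀ r ∈ L, ∀ j, (∃ r' v', (r, j) ∈ Z r' v') ∨ ∃ v, (r, j) ∈ P v) ∧
      (∀ r v r' v' e, e ∈ Z r v → e ∈ Z r' v' → (r = r' ∧ v = v')) ∧
      (∀ v v' e, e ∈ P v → e ∈ P v' → v = v') ∧
      (∀ r v v' e, e ∈ Z r v → e ∉ P v') := by
  classical
  induction L using Finset.induction_on with
  | empty =>
    refine ⟨fun _ _ => ∅, fun _ => [], ?_, ?_, ?_, ?_, ?_, ?_, ?_, ?_, ?_⟩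
    · intro v
      exact ⟨v, IsSeg.nil⟩
    · intro r v
      exact closed_empty nxt
    all_goals simp
  | insert r0 L hr0 ih =>
    obtain ⟨Z, P, hP, hZ, hZL', hZL, hPL, hcov, hZZ, hPP, hZP⟩ :=
      ih (fun r hr => hinj r (mem_insert_of_mem hr))
    have hr0P : ∀ v, r0 ∉ (P v).map Prod.fst := by
      intro v hh
      obtain ⟨e, he, he2⟩ := List.mem_map.mp hh
      apply hr0
      rw [← he2]
      exact hPL v e he
    have hstep : ∀ v, ∃ (Q : List (R × J)) (Z : Finset (R × J)),
        (∀ w, nxt r0 v = some w → ∃ s', IsSeg nxt s' w Q) ∧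
        (nxt r0 v = none → Q = []) ∧ Closed nxt Z ∧
        (∀ e, (e ∈ Z ∨ e ∈ Q) ↔ (e = (r0, v) ∨ e ∈ P v)) ∧
        (∀ e ∈ Z, e ∉ Q) := by
      intro v
      obtain ⟨s, hs⟩ := hP v
      exact hs.step (hr0P v)
    choose Q Z0 hQ1 hQ2 hZ0 hQZ hZQ using hstep
    have hinj0 := hinj r0 (mem_insert_self _ _)
    let Z' : R → J → Finset (R × J) := fun r v => if r = r0 then Z0 v else Z r v
    let P' : J → List (R × J) := fun w => if h : ∃ v, nxt r0 v = some w then Q h.choose else []
    have hP'1 : ∀ v w, nxt r0 v = some w → P' w = Q v := by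
      intro v w hvw
      have h : ∃ v, nxt r0 v = some w := ⟨v, hvw⟩
      have : h.choose = v := hinj0 _ _ w h.choose_spec hvw
      simp only [P', dif_pos h, this]
    have hP'2 : ∀ w e, e ∈ P' w → ∃ v, nxt r0 v = some w ∧ e ∈ Q v := by
      intro w e he
      by_cases h : ∃ v, nxt r0 v = some w
      · obtain ⟨v, hv⟩ := h
        rw [hP'1 v w hv] at he
        exact ⟨v, hv, he⟩
      · simp only [P', dif_neg h] at he
        simp at he
    have hZ'0 : ∀ v, Z' r0 v = Z0 v := by
      intro v
      simp [Z']
    have hZ'1 : ∀ r v, r ≠ r0 → Z' r v = Z r v := by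
      intro r v hr
      simp [Z', hr]
    have hZr0 : ∀ v, Z r0 v = ∅ := by
      intro v
      rw [Finset.eq_empty_iff_forall_notMem]
      intro e he
      exact hr0 (hZL' r0 v e he)
    have mem_of_Z0 : ∀ v e, e ∈ Z0 v → (e = (r0, v) ∨ e ∈ P v) := fun v e he =>
      (hQZ v e).mp (Or.inl he)
    have mem_of_Q : ∀ v e, e ∈ Q v → (e = (r0, v) ∨ e ∈ P v) := fun v e he =>
      (hQZ v e).mp (Or.inr he)
    have hvv : ∀ v v' e, (e = (r0, v) ∨ e ∈ P v) → (e = (r0, v') ∨ e ∈ P v') → v = v' := by
      rintro v v' e (rfl | h1) (h2 | h2)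
      · exact congrArg Prod.snd h2
      · exact absurd (hPL v' _ h2) hr0
      · subst h2
        exact absurd (hPL v _ h1) hr0
      · exact hPP v v' e h1 h2
    have hZold : ∀ r v v' e, e ∈ Z r v → (e = (r0, v') ∨ e ∈ P v') → False := by
      rintro r v v' e h1 (rfl | h2)
      · exact hr0 (hZL r v _ h1)
      · exact hZP r v v' e h1 h2
    refine ⟨Z', P', ?_, ?_, ?_, ?_, ?_, ?_, ?_, ?_, ?_⟩
    · intro w
      by_cases h : ∃ v, nxt r0 v = some w
      · obtain ⟨v, hv⟩ := h
        rw [hP'1 v w hv]
        exact hQ1 v w hv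
      · refine ⟨w, ?_⟩
        simp only [P', dif_neg h]
        exact IsSeg.nil
    · intro r v
      by_cases hr : r = r0
      · subst hr
        rw [hZ'0]
        exact hZ0 v
      · rw [hZ'1 r v hr]
        exact hZ r v
    · intro r v e he
      by_cases hr : r = r0
      · rw [hr]
        exact mem_insert_self _ _
      · rw [hZ'1 r v hr] at he
        exact mem_insert_of_mem (hZL' r v e he)
    · intro r v e he
      by_cases hr : r = r0
      · subst hr
        rw [hZ'0] at he
        rcases mem_of_Z0 v e he with rfl | he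
        · exact mem_insert_self _ _
        · exact mem_insert_of_mem (hPL v e he)
      · rw [hZ'1 r v hr] at he
        exact mem_insert_of_mem (hZL r v e he)
    · intro w e he
      obtain ⟨v, -, hv⟩ := hP'2 w e he
      rcases mem_of_Q v e hv with rfl | he
      · exact mem_insert_self _ _
      · exact mem_insert_of_mem (hPL v e he)
    · intro r hr j
      have aux : ∀ v, (r, j) = (r0, v) ∨ (r, j) ∈ P v →
          (∃ r' v', (r, j) ∈ Z' r' v') ∨ ∃ v, (r, j) ∈ P' v := by
        intro v hv
        rcases (hQZ v (r, j)).mpr hv with hv | hv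
        · left
          refine ⟨r0, v, ?_⟩
          rw [hZ'0]
          exact hv
        · right
          rcases hn : nxt r0 v with _ | w
          · rw [hQ2 v hn] at hv
            simp at hv
          · refine ⟨w, ?_⟩
            rw [hP'1 v w hn]
            exact hv
      rw [mem_insert] at hr
      rcases hr with rfl | hr
      · exact aux j (Or.inl rfl)
      · rcases hcov r hr j with ⟨r', v', h⟩ | ⟨v, h⟩
        · left
          refine ⟨r', v', ?_⟩
          rw [hZ'1]
          · exact h
          · rintro rfl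
            exact hr0 (hZL' r' v' _ h)
        · exact aux v (Or.inr h)
    · intro r v r' v' e he he'
      by_cases hr : r = r0
      · by_cases hr' : r' = r0
        · subst hr
          subst hr'
          rw [hZ'0] at he he'
          exact ⟨rfl, hvv v v' e (mem_of_Z0 v e he) (mem_of_Z0 v' e he')⟩
        · subst hr
          rw [hZ'0] at he
          rw [hZ'1 r' v' hr'] at he'
          exact (hZold r' v' v e he' (mem_of_Z0 v e he)).elim
      · by_cases hr' : r' = r0
        · subst hr'
          rw [hZ'0] at he'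
          rw [hZ'1 r v hr] at he
          exact (hZold r v v' e he (mem_of_Z0 v' e he')).elim
        · rw [hZ'1 r v hr] at he
          rw [hZ'1 r' v' hr'] at he'
          exact hZZ r v r' v' e he he'
    · intro w w' e he he'
      obtain ⟨v, hv, hve⟩ := hP'2 w e he
      obtain ⟨v', hv', hve'⟩ := hP'2 w' e he'
      have := hvv v v' e (mem_of_Q v e hve) (mem_of_Q v' e hve')
      subst this
      rw [hv] at hv'
      simpa using hv'
    · intro r v w e he he'
      obtain ⟨v', hv', hve'⟩ := hP'2 w e he'
      by_cases hr : r = r0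
      · subst hr
        rw [hZ'0] at he
        have := hvv v v' e (mem_of_Z0 v e he) (mem_of_Q v' e hve')
        subst this
        exact hZQ v e he hve'
      · rw [hZ'1 r v hr] at he
        exact hZold r v v' e he (mem_of_Q v' e hve')

/-- Packaged form of the loop-erasure lemma, with the coverage count. -/
theorem exists_closed_family [Fintype J] (nxt : R → J → Option J) (L : Finset R)
    (hinj : ∀ r ∈ L, ∀ v v' i, nxt r v = some i → nxt r v' = some i → v = v') :
    ∃ Z : R × J → Finset (R × J),
      (∀ p, Closed nxt (Z p)) ∧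
      (∀ p, ∀ e ∈ Z p, e.1 ∈ L) ∧
      (∀ p p' e, e ∈ Z p → e ∈ Z p' → p = p') ∧
      (∀ j, L.card ≤ ((L ×ˢ (Finset.univ : Finset J)).filter
        (fun p => ∃ e ∈ Z p, e.2 = j)).card + (Fintype.card J - 1)) := by
  classical
  obtain ⟨Z, P, hP, hZ, hZL', hZL, hPL, hcov, hZZ, hPP, hZP⟩ := walkers nxt L hinj
  refine ⟨fun p => Z p.1 p.2, fun p => hZ p.1 p.2, fun p => hZL p.1 p.2, ?_, ?_⟩
  · intro p p' e he he'
    obtain ⟨h1, h2⟩ := hZZ _ _ _ _ e he he'
    exact Prod.ext h1 h2
  · intro j
    have hcard : (((L ×ˢ (Finset.univ : Finset J)).filter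
        (fun p => ∃ e ∈ Z p.1 p.2, e.2 = j)).disjSum (Finset.univ.erase j)).card =
        ((L ×ˢ (Finset.univ : Finset J)).filter
        (fun p => ∃ e ∈ Z p.1 p.2, e.2 = j)).card + (Fintype.card J - 1) := by
      rw [Finset.card_disjSum, Finset.card_erase_of_mem (mem_univ _), Finset.card_univ]
    rw [← hcard]
    have howner : ∀ r ∈ L, ∃ o : (R × J) ⊕ J,
        (∃ p, o = Sum.inl p ∧ (r, j) ∈ Z p.1 p.2) ∨ (∃ v, o = Sum.inr v ∧ (r, j) ∈ P v) := by
      intro r hr
      rcases hcov r hr j with ⟨r', v', h⟩ | ⟨v, h⟩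
      · exact ⟨Sum.inl (r', v'), Or.inl ⟨(r', v'), rfl, h⟩⟩
      · exact ⟨Sum.inr v, Or.inr ⟨v, rfl, h⟩⟩
    have : Nonempty ((R × J) ⊕ J) := ⟨Sum.inr j⟩
    choose! o ho using howner
    apply Finset.card_le_card_of_injOn o
    · intro r hr
      have hr' : r ∈ L := hr
      rcases ho r hr' with ⟨p, hp, hp2⟩ | ⟨v, hv, hv2⟩
      · rw [hp, mem_coe, Finset.inl_mem_disjSum]
        rw [mem_filter, mem_product]
        exact ⟨⟨hZL' _ _ _ hp2, mem_univ _⟩, _, hp2, rfl⟩
      · rw [hv, mem_coe, Finset.inr_mem_disjSum]
        rw [mem_erase]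
        refine ⟨?_, mem_univ _⟩
        rintro rfl
        obtain ⟨s, hs⟩ := hP v
        exact hs.end_notMem (List.mem_map.mpr ⟨_, hv2, rfl⟩)
    · intro r hr r' hr' hrr
      have hr1 : r ∈ L := hr
      have hr1' : r' ∈ L := hr'
      rcases ho r hr1 with ⟨p, hp, hp2⟩ | ⟨v, hv, hv2⟩ <;>
        rcases ho r' hr1' with ⟨p', hp', hp2'⟩ | ⟨v', hv', hv2'⟩
      · rw [hp, hp'] at hrr
        have : p = p' := by simpa using hrr
        subst this
        have := (hZ p.1 p.2).cols _ hp2 _ hp2' rfl
        exact congrArg Prod.fst this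
      · rw [hp, hv'] at hrr
        simp at hrr
      · rw [hv, hp'] at hrr
        simp at hrr
      · rw [hv, hv'] at hrr
        have : v = v' := by simpa using hrr
        subst this
        obtain ⟨s, hs⟩ := hP v
        have := hs.cols_inj _ hv2 _ hv2' rfl
        exact congrArg Prod.fst this

end Pool.Agent.DisjTrans
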