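import Mathlib

/-!
Structure lemma for MP_884cd1_co: after deleting few rows, and after singling out few symbols,
every single symbol occurs in each column never or often, and the remaining symbols of each
column are either absent or spread out.
-/

namespace Pool.Agent.DisjTrans

open Finset

set_option linter.unusedSectionVars false

variable {R J S : Type*} [Fintype R] [DecidableEq R] [Fintype J] [DecidableEq J] [DecidableEq S]

/-- number of rows of `R'` with symbol `s` in column `j` -/
def mu (a : R → J → S) (R' : Finset R) (j : J) (s : S) : ℕ :=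
  (R'.filter (fun r => a r j = s)).card

/-- number of rows of `R'` whose symbol in column `j` is not in `F` -/
def rho (a : R → J → S) (F : Finset S) (R' : Finset R) (j : J) : ℕ :=
  (R'.filter (fun r => a r j ∉ F)).card

theorem mu_mono (a : R → J → S) {R' R'' : Finset R} (h : R'' ⊆ R') (j : J) (s : S) :
    mu a R'' j s ≤ mu a R' j s :=
  Finset.card_le_card (Finset.filter_subset_filter _ h)

theorem rho_mono (a : R → J → S) (F : Finset S) {R' R'' : Finset R} (h : R'' ⊆ R') (j : J) :
    rho a F R'' j ≤ rho a F R' j :=
  Finset.card_le_card (Finset.filter_subset_filter _ h)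

theorem rho_insert (a : R → J → S) (F : Finset S) (R' : Finset R) (j : J) (s : S) (hs : s ∉ F) :
    rho a (insert s F) R' j + mu a R' j s = rho a F R' j := by
  unfold rho mu
  rw [← Finset.card_union_of_disjoint]
  · congr 1
    ext r
    simp only [mem_union, mem_filter, mem_insert, not_or]
    constructor
    · rintro (⟨h1, h2, h3⟩ | ⟨h1, h2⟩)
      · exact ⟨h1, h3⟩
      · rw [h2]
        exact ⟨h1, hs⟩
    · rintro ⟨h1, h2⟩
      by_cases h : a r j = s
      · exact Or.inr ⟨h1, h⟩
      · exact Or.inl ⟨h1, h, h2⟩
  · rw [Finset.disjoint_left]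
    intro r h1 h2
    rw [mem_filter] at h1 h2
    apply h1.2
    rw [h2.2]
    exact mem_insert_self _ _

/-- the potential -/
noncomputable def pot (a : R → J → S) (F : Finset S) (R' : Finset R) : ℝ :=
  2 * (Fintype.card J : ℝ) ^ 2 * F.card + (R'ᶜ).card
    + 2 * (Fintype.card J : ℝ) *
      (((Finset.univ : Finset J) ×ˢ F).filter (fun p => 0 < mu a R' p.1 p.2)).card
    + 4 * (Fintype.card J : ℝ) * ((Finset.univ : Finset J).filter (fun j => 0 < rho a F R' j)).card
    + 4 * (Fintype.card J : ℝ) ^ 2 * (4 * (Fintype.card J : ℝ) + 1) *
      ∑ j, Real.log ((rho a F R' j : ℝ) + 1)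

theorem log_term_mono {x y : ℕ} (h : x ≤ y) :
    Real.log ((x : ℝ) + 1) ≤ Real.log ((y : ℝ) + 1) := by
  apply Real.log_le_log
  · positivity
  · have : (x : ℝ) ≤ y := by exact_mod_cast h
    linarith

theorem exists_structure [Nonempty J] (a : R → J → S) :
    ∃ (F : Finset S) (R' : Finset R),
      (∀ j, ∀ s ∈ F, mu a R' j s = 0 ∨ 2 * Fintype.card J ≤ mu a R' j s) ∧
      (∀ j, rho a F R' j = 0 ∨ (4 * Fintype.card J ≤ rho a F R' j ∧
        ∀ s ∉ F, 4 * Fintype.card J * mu a R' j s ≤ rho a F R' j)) ∧
      (2 * (Fintype.card J : ℝ) ^ 2 * F.card + (R'ᶜ).card ≤ 4 * (Fintype.card J : ℝ) ^ 2 +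
        4 * (Fintype.card J : ℝ) ^ 3 * (4 * (Fintype.card J : ℝ) + 1) *
          Real.log ((Fintype.card R : ℝ) + 1)) := by
  classical
  set n : ℝ := (Fintype.card J : ℝ) with hn
  have hn1 : 1 ≤ n := by
    rw [hn]
    exact_mod_cast Fintype.card_pos
  set SS : Finset S := (Finset.univ : Finset (R × J)).image (fun p => a p.1 p.2) with hSS
  obtain ⟨⟨F, R'⟩, hmem, hmin⟩ := Finset.exists_min_image
    (SS.powerset ×ˢ (Finset.univ : Finset R).powerset)
    (fun p => pot a p.1 p.2) ⟨(∅, Finset.univ), by simp⟩
  rw [mem_product, mem_powerset, mem_powerset] at hmem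
  have hF : F ⊆ SS := hmem.1
  refine ⟨F, R', ?_, ?_, ?_⟩
  · -- small pairs
    intro j s hs
    by_contra hcon
    push Not at hcon
    obtain ⟨h0, h1⟩ := hcon
    set R'' := R'.filter (fun r => a r j ≠ s) with hR''
    have hsub : R'' ⊆ R' := Finset.filter_subset _ _
    have hpot := hmin (F, R'') (by
      rw [mem_product, mem_powerset, mem_powerset]
      exact ⟨hF, Finset.subset_univ _⟩)
    simp only [pot, ← hn] at hpot
    have hcompl : (R''ᶜ).card = (R'ᶜ).card + mu a R' j s := by
      have h2 : R''.card + mu a R' j s = R'.card := by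
        unfold mu
        rw [hR'', add_comm]
        exact Finset.card_filter_add_card_filter_not (s := R') (fun r => a r j = s)
      have h3 := Finset.card_le_univ R'
      rw [Finset.card_compl, Finset.card_compl]
      omega
    have hpairs : (((Finset.univ : Finset J) ×ˢ F).filter (fun p => 0 < mu a R'' p.1 p.2)).card + 1
        ≤ (((Finset.univ : Finset J) ×ˢ F).filter (fun p => 0 < mu a R' p.1 p.2)).card := by
      rw [Nat.add_one_le_iff]
      apply Finset.card_lt_card
      rw [Finset.ssubset_iff_of_subset]
      · refine ⟨(j, s), ?_, ?_⟩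
        · rw [mem_filter, mem_product]
          exact ⟨⟨mem_univ _, hs⟩, Nat.pos_of_ne_zero h0⟩
        · rw [mem_filter]
          rintro ⟨-, h2⟩
          unfold mu at h2
          rw [Finset.card_pos] at h2
          obtain ⟨r, hr⟩ := h2
          rw [mem_filter, hR'', mem_filter] at hr
          exact hr.1.2 hr.2
      · intro p hp
        rw [mem_filter] at hp ⊢
        exact ⟨hp.1, lt_of_lt_of_le hp.2 (mu_mono a hsub _ _)⟩
    have hlight : ((Finset.univ : Finset J).filter (fun j => 0 < rho a F R'' j)).card ≤
        ((Finset.univ : Finset J).filter (fun j => 0 < rho a F R' j)).card := by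
      apply Finset.card_le_card
      intro p hp
      rw [mem_filter] at hp ⊢
      exact ⟨hp.1, lt_of_lt_of_le hp.2 (rho_mono a F hsub _)⟩
    have hlog : ∑ j, Real.log ((rho a F R'' j : ℝ) + 1) ≤
        ∑ j, Real.log ((rho a F R' j : ℝ) + 1) :=
      Finset.sum_le_sum (fun j _ => log_term_mono (rho_mono a F hsub j))
    have h1' : (mu a R' j s : ℝ) < 2 * n := by
      rw [hn]
      exact_mod_cast h1
    have hpairs' : ((((Finset.univ : Finset J) ×ˢ F).filter
        (fun p => 0 < mu a R'' p.1 p.2)).card : ℝ) + 1
        ≤ (((Finset.univ : Finset J) ×ˢ F).filter (fun p => 0 < mu a R' p.1 p.2)).card := by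
      exact_mod_cast hpairs
    have hlight' : (((Finset.univ : Finset J).filter (fun j => 0 < rho a F R'' j)).card : ℝ) ≤
        ((Finset.univ : Finset J).filter (fun j => 0 < rho a F R' j)).card := by
      exact_mod_cast hlight
    rw [hcompl] at hpot
    push_cast at hpot
    have e1 := mul_le_mul_of_nonneg_left hpairs' (by positivity : (0:ℝ) ≤ 2 * n)
    have e2 := mul_le_mul_of_nonneg_left hlight' (by positivity : (0:ℝ) ≤ 4 * n)
    have e3 := mul_le_mul_of_nonneg_left hlog (by positivity : (0:ℝ) ≤ 4 * n ^ 2 * (4 * n + 1))
    linarith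
  · intro j
    by_contra hcon
    push Not at hcon
    obtain ⟨h0, h1⟩ := hcon
    by_cases hsmall : 4 * Fintype.card J ≤ rho a F R' j
    · -- an unspread symbol
      obtain ⟨s, hs, hsmu⟩ := h1 hsmall
      have hspos : 0 < mu a R' j s := by
        by_contra hc
        have : mu a R' j s = 0 := by omega
        rw [this] at hsmu
        simp at hsmu
      have hsSS : s ∈ SS := by
        unfold mu at hspos
        rw [Finset.card_pos] at hspos
        obtain ⟨r, hr⟩ := hspos
        rw [mem_filter] at hr
        rw [hSS, mem_image]
        exact ⟨(r, j), mem_univ _, hr.2⟩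
      have hpot := hmin (insert s F, R') (by
        rw [mem_product, mem_powerset, mem_powerset]
        exact ⟨Finset.insert_subset hsSS hF, Finset.subset_univ _⟩)
      simp only [pot, ← hn] at hpot
      rw [Finset.card_insert_of_notMem hs] at hpot
      have hpairs : (((Finset.univ : Finset J) ×ˢ (insert s F)).filter
          (fun p => 0 < mu a R' p.1 p.2)).card ≤
          (((Finset.univ : Finset J) ×ˢ F).filter (fun p => 0 < mu a R' p.1 p.2)).card
            + Fintype.card J := by
        calc _ ≤ ((((Finset.univ : Finset J) ×ˢ F).filter (fun p => 0 < mu a R' p.1 p.2)) ∪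
              ((Finset.univ : Finset J).image (fun j => (j, s)))).card := by
              apply Finset.card_le_card
              intro p hp
              rw [mem_filter, mem_product, mem_insert] at hp
              rw [mem_union, mem_filter, mem_product, mem_image]
              rcases hp.1.2 with h | h
              · right
                exact ⟨p.1, mem_univ _, Prod.ext rfl h.symm⟩
              · left
                exact ⟨⟨mem_univ _, h⟩, hp.2⟩
          _ ≤ _ := by
              refine (Finset.card_union_le _ _).trans ?_
              gcongr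
              refine Finset.card_image_le.trans ?_
              rw [Finset.card_univ]
      have hlight : ((Finset.univ : Finset J).filter (fun j => 0 < rho a (insert s F) R' j)).card ≤
          ((Finset.univ : Finset J).filter (fun j => 0 < rho a F R' j)).card := by
        apply Finset.card_le_card
        intro p hp
        rw [mem_filter] at hp ⊢
        have := rho_insert a F R' p s hs
        exact ⟨hp.1, by omega⟩
      have hlog : ∑ i, Real.log ((rho a (insert s F) R' i : ℝ) + 1) + 1 / (4 * n + 1) <
          ∑ i, Real.log ((rho a F R' i : ℝ) + 1) := by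
        rw [← Finset.add_sum_erase _ _ (mem_univ j), ← Finset.add_sum_erase _
          (fun i => Real.log ((rho a F R' i : ℝ) + 1)) (mem_univ j)]
        have h2 : ∑ i ∈ Finset.univ.erase j, Real.log ((rho a (insert s F) R' i : ℝ) + 1) ≤
            ∑ i ∈ Finset.univ.erase j, Real.log ((rho a F R' i : ℝ) + 1) := by
          apply Finset.sum_le_sum
          intro i _
          apply log_term_mono
          have := rho_insert a F R' i s hs
          omega
        have h3 := rho_insert a F R' j s hs
        have h3' : (rho a (insert s F) R' j : ℝ) + mu a R' j s = rho a F R' j := by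
          exact_mod_cast h3
        have h4 : Real.log ((rho a (insert s F) R' j : ℝ) + 1) + 1 / (4 * n + 1) <
            Real.log ((rho a F R' j : ℝ) + 1) := by
          set x : ℝ := (rho a F R' j : ℝ) + 1 with hx
          set y : ℝ := (rho a (insert s F) R' j : ℝ) + 1 with hy
          have hxpos : 0 < x := by positivity
          have hypos : 0 < y := by positivity
          have h5 : 1 - (x / y)⁻¹ ≤ Real.log (x / y) :=
            Real.one_sub_inv_le_log_of_pos (by positivity)
          rw [Real.log_div hxpos.ne' hypos.ne', inv_div] at h5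
          have h6 : 1 - y / x = (mu a R' j s : ℝ) / x := by
            have : x - y = mu a R' j s := by
              rw [hx, hy]
              linarith
            rw [← this]
            field_simp
          have h7 : 1 / (4 * n + 1) < (mu a R' j s : ℝ) / x := by
            rw [div_lt_div_iff₀ (by positivity) hxpos]
            have h8 : (rho a F R' j : ℝ) < 4 * n * mu a R' j s := by
              rw [hn]
              exact_mod_cast hsmu
            have h9 : (1 : ℝ) ≤ mu a R' j s := by
              exact_mod_cast hspos
            rw [hx]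
            linarith
          rw [h6] at h5
          linarith
        linarith
      have hpairs' : ((((Finset.univ : Finset J) ×ˢ (insert s F)).filter
          (fun p => 0 < mu a R' p.1 p.2)).card : ℝ) ≤
          (((Finset.univ : Finset J) ×ˢ F).filter (fun p => 0 < mu a R' p.1 p.2)).card
            + n := by
        rw [hn]
        exact_mod_cast hpairs
      have hlight' : (((Finset.univ : Finset J).filter
          (fun j => 0 < rho a (insert s F) R' j)).card : ℝ) ≤
          ((Finset.univ : Finset J).filter (fun j => 0 < rho a F R' j)).card := by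
        exact_mod_cast hlight
      push_cast at hpot
      have e1 := mul_le_mul_of_nonneg_left hpairs' (by positivity : (0:ℝ) ≤ 2 * n)
      have e2 := mul_le_mul_of_nonneg_left hlight' (by positivity : (0:ℝ) ≤ 4 * n)
      have e3 := mul_lt_mul_of_pos_left hlog (by positivity : (0:ℝ) < 4 * n ^ 2 * (4 * n + 1))
      have e4 : 4 * n ^ 2 * (4 * n + 1) * (∑ i, Real.log ((rho a (insert s F) R' i : ℝ) + 1)
          + 1 / (4 * n + 1)) = 4 * n ^ 2 * (4 * n + 1) *
          (∑ i, Real.log ((rho a (insert s F) R' i : ℝ) + 1)) + 4 * n ^ 2 := by
        have : (4 * n + 1) ≠ 0 := by positivity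
        field_simp
      rw [e4] at e3
      nlinarith
    · -- few light rows
      push Not at hsmall
      set R'' := R'.filter (fun r => a r j ∈ F) with hR''
      have hsub : R'' ⊆ R' := Finset.filter_subset _ _
      have hpot := hmin (F, R'') (by
        rw [mem_product, mem_powerset, mem_powerset]
        exact ⟨hF, Finset.subset_univ _⟩)
      simp only [pot, ← hn] at hpot
      have hcompl : (R''ᶜ).card = (R'ᶜ).card + rho a F R' j := by
        have h2 : R''.card + rho a F R' j = R'.card := by
          unfold rho
          rw [hR'']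
          exact Finset.card_filter_add_card_filter_not (s := R') (fun r => a r j ∈ F)
        have h3 := Finset.card_le_univ R'
        rw [Finset.card_compl, Finset.card_compl]
        omega
      have hpairs : (((Finset.univ : Finset J) ×ˢ F).filter (fun p => 0 < mu a R'' p.1 p.2)).card
          ≤ (((Finset.univ : Finset J) ×ˢ F).filter (fun p => 0 < mu a R' p.1 p.2)).card := by
        apply Finset.card_le_card
        intro p hp
        rw [mem_filter] at hp ⊢
        exact ⟨hp.1, lt_of_lt_of_le hp.2 (mu_mono a hsub _ _)⟩
      have hlight : ((Finset.univ : Finset J).filter (fun j => 0 < rho a F R'' j)).card + 1 ≤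
          ((Finset.univ : Finset J).filter (fun j => 0 < rho a F R' j)).card := by
        rw [Nat.add_one_le_iff]
        apply Finset.card_lt_card
        rw [Finset.ssubset_iff_of_subset]
        · refine ⟨j, ?_, ?_⟩
          · rw [mem_filter]
            exact ⟨mem_univ _, Nat.pos_of_ne_zero h0⟩
          · rw [mem_filter]
            rintro ⟨-, h2⟩
            unfold rho at h2
            rw [Finset.card_pos] at h2
            obtain ⟨r, hr⟩ := h2
            rw [mem_filter, hR'', mem_filter] at hr
            exact hr.2 hr.1.2
        · intro p hp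
          rw [mem_filter] at hp ⊢
          exact ⟨hp.1, lt_of_lt_of_le hp.2 (rho_mono a F hsub _)⟩
      have hlog : ∑ j, Real.log ((rho a F R'' j : ℝ) + 1) ≤
          ∑ j, Real.log ((rho a F R' j : ℝ) + 1) :=
        Finset.sum_le_sum (fun j _ => log_term_mono (rho_mono a F hsub j))
      have h1' : (rho a F R' j : ℝ) < 4 * n := by
        rw [hn]
        exact_mod_cast hsmall
      have hpairs' : ((((Finset.univ : Finset J) ×ˢ F).filter
          (fun p => 0 < mu a R'' p.1 p.2)).card : ℝ)
          ≤ (((Finset.univ : Finset J) ×ˢ F).filter (fun p => 0 < mu a R' p.1 p.2)).card := by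
        exact_mod_cast hpairs
      have hlight' : (((Finset.univ : Finset J).filter (fun j => 0 < rho a F R'' j)).card : ℝ) + 1 ≤
          ((Finset.univ : Finset J).filter (fun j => 0 < rho a F R' j)).card := by
        exact_mod_cast hlight
      rw [hcompl] at hpot
      push_cast at hpot
      have e1 := mul_le_mul_of_nonneg_left hpairs' (by positivity : (0:ℝ) ≤ 2 * n)
      have e2 := mul_le_mul_of_nonneg_left hlight' (by positivity : (0:ℝ) ≤ 4 * n)
      have e3 := mul_le_mul_of_nonneg_left hlog (by positivity : (0:ℝ) ≤ 4 * n ^ 2 * (4 * n + 1))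
      linarith
  · have hpot := hmin (∅, Finset.univ) (by simp)
    simp only [pot, ← hn] at hpot
    have h1 : ((((Finset.univ : Finset J) ×ˢ (∅ : Finset S)).filter
        (fun p => 0 < mu a Finset.univ p.1 p.2)).card : ℝ) = 0 := by simp
    rw [h1] at hpot
    have h2 : (((Finset.univ : Finset J).filter
        (fun j => 0 < rho a (∅ : Finset S) Finset.univ j)).card : ℝ) ≤ n := by
      rw [hn]
      exact_mod_cast (Finset.card_filter_le _ _).trans (by rw [Finset.card_univ])
    have h3 : ∑ j, Real.log ((rho a (∅ : Finset S) Finset.univ j : ℝ) + 1) ≤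
        n * Real.log ((Fintype.card R : ℝ) + 1) := by
      calc _ ≤ ∑ j : J, Real.log ((Fintype.card R : ℝ) + 1) := by
            apply Finset.sum_le_sum
            intro j _
            apply log_term_mono
            unfold rho
            exact (Finset.card_filter_le _ _).trans (by rw [Finset.card_univ])
        _ = n * Real.log ((Fintype.card R : ℝ) + 1) := by simp [hn]
    have h4 : (0:ℝ) ≤ (((Finset.univ : Finset J) ×ˢ F).filter
        (fun p => 0 < mu a R' p.1 p.2)).card := by positivity
    have h5 : (0:ℝ) ≤ ((Finset.univ : Finset J).filter (fun j => 0 < rho a F R' j)).card := by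
      positivity
    have h6 : 0 ≤ ∑ j, Real.log ((rho a F R' j : ℝ) + 1) := by
      apply Finset.sum_nonneg
      intro j _
      apply Real.log_nonneg
      have : (0:ℝ) ≤ rho a F R' j := by positivity
      linarith
    have e1 := mul_nonneg (by positivity : (0:ℝ) ≤ 2 * n) h4
    have e2 := mul_nonneg (by positivity : (0:ℝ) ≤ 4 * n) h5
    have e3 := mul_nonneg (by positivity : (0:ℝ) ≤ 4 * n ^ 2 * (4 * n + 1)) h6
    have e4 := mul_le_mul_of_nonneg_left h2 (by positivity : (0:ℝ) ≤ 4 * n)
    have e5 := mul_le_mul_of_nonneg_left h3 (by positivity : (0:ℝ) ≤ 4 * n ^ 2 * (4 * n + 1))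
    have h7 : ((Finset.univ : Finset R)ᶜ.card : ℝ) = 0 := by simp
    have h8 : (((∅ : Finset S).card : ℕ) : ℝ) = 0 := by simp
    rw [h7, h8] at hpot
    have e6 : 4 * n ^ 2 * (4 * n + 1) * (n * Real.log ((Fintype.card R : ℝ) + 1)) =
        4 * n ^ 3 * (4 * n + 1) * Real.log ((Fintype.card R : ℝ) + 1) := by ring
    rw [e6] at e5
    nlinarith

end Pool.Agent.DisjTrans
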