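import Pool.Agent.DisjTrans.Basic
import Pool.Agent.DisjTrans.Structure

/-!
Assembly of transversals column by column for MP_884cd1_co.
-/

namespace Pool.Agent.DisjTrans

open Finset

set_option linter.unusedSectionVars false

variable {R J S X : Type*} [Fintype R] [DecidableEq R] [Fintype J] [DecidableEq J] [DecidableEq S]
  [Fintype X] [DecidableEq X]

/-- The type of the cell `(r, j)`: its symbol if that is in `F`, otherwise the column `j`. -/
def ty (a : R → J → S) (F : Finset S) (r : R) (j : J) : {s // s ∈ F} ⊕ J :=
  if h : a r j ∈ F then Sum.inl ⟨a r j, h⟩ else Sum.inr j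

omit [Fintype R] [DecidableEq R] [Fintype J] [DecidableEq J] in
theorem ty_eq_inl {a : R → J → S} {F : Finset S} {r : R} {j : J} {s : {s // s ∈ F}} :
    ty a F r j = Sum.inl s ↔ a r j = s.1 := by
  unfold ty
  split_ifs with h
  · rw [Sum.inl.injEq]
    constructor
    · intro hh
      rw [← hh]
    · intro hh
      exact Subtype.ext hh
  · constructor
    · intro hh
      simp at hh
    · intro hh
      exact absurd (hh ▸ s.2) h

omit [Fintype R] [DecidableEq R] [Fintype J] [DecidableEq J] in
theorem ty_eq_inr {a : R → J → S} {F : Finset S} {r : R} {j j' : J} :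
    ty a F r j = Sum.inr j' ↔ a r j ∉ F ∧ j = j' := by
  unfold ty
  split_ifs with h
  · simp [h]
  · simp [h]

/-- The hypotheses on a list of slots. -/
structure Plan (a : R → J → S) (F : Finset S) (G : Finset R) (Zs : X → Finset (R × J))
    (pat : X → J → {s // s ∈ F} ⊕ J) (b : ℕ) : Prop where
  pat_inj : ∀ x, Function.Injective (pat x)
  row : ∀ x, ∀ e ∈ Zs x, e.1 ∉ G
  rows : ∀ x, ∀ e ∈ Zs x, ∀ e' ∈ Zs x, e.1 = e'.1 → e = e'
  cols : ∀ x, ∀ e ∈ Zs x, ∀ e' ∈ Zs x, e.2 = e'.2 → e = e'
  syms : ∀ x, ∀ e ∈ Zs x, ∀ e' ∈ Zs x, a e.1 e.2 = a e'.1 e'.2 → e = e'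
  disj : ∀ x x' e, e ∈ Zs x → e ∈ Zs x' → x = x'
  compat : ∀ x, ∀ e ∈ Zs x, ∀ j, (∀ e' ∈ Zs x, e'.2 ≠ j) → ty a F e.1 e.2 ≠ pat x j ∨
    a e.1 e.2 ∉ F
  use : ∀ j y, (Finset.univ.filter (fun x => (∀ e ∈ Zs x, e.2 ≠ j) ∧ pat x j = y)).card ≤
    (G.filter (fun r => ty a F r j = y)).card
  hmu : ∀ j, ∀ s ∈ F, mu a G j s = 0 ∨ 2 * Fintype.card J ≤ mu a G j s
  hrho : ∀ j, rho a F G j = 0 ∨ (4 * Fintype.card J ≤ rho a F G j ∧
        ∀ s ∉ F, 4 * Fintype.card J * mu a G j s ≤ rho a F G j)
  hsym : ∀ s, (Finset.univ.filter (fun x => ∃ e ∈ Zs x, a e.1 e.2 = s)).card ≤ b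
  hbig : ∀ x j, (Zs x).Nonempty → (∀ e ∈ Zs x, e.2 ≠ j) → pat x j = Sum.inr j →
    4 * Fintype.card J + 2 * b ≤ rho a F G j

/-- The state after processing the columns in `D`. -/
structure State (a : R → J → S) (F : Finset S) (G : Finset R) (Zs : X → Finset (R × J))
    (pat : X → J → {s // s ∈ F} ⊕ J) (D : Finset J) (T : X → J → R) : Prop where
  pre : ∀ x, ∀ e ∈ Zs x, T x e.2 = e.1
  mem : ∀ x, ∀ j ∈ D, (∀ e ∈ Zs x, e.2 ≠ j) → T x j ∈ G ∧ ty a F (T x j) j = pat x j
  inj : ∀ j ∈ D, ∀ x x', (∀ e ∈ Zs x, e.2 ≠ j) → (∀ e ∈ Zs x', e.2 ≠ j) → T x j = T x' j → x = x'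
  rows : ∀ x, ∀ j ∈ D ∪ (Zs x).image Prod.snd, ∀ j' ∈ D ∪ (Zs x).image Prod.snd,
    T x j = T x j' → j = j'
  syms : ∀ x, ∀ j ∈ D ∪ (Zs x).image Prod.snd, ∀ j' ∈ D ∪ (Zs x).image Prod.snd,
    a (T x j) j = a (T x j') j' → j = j'

variable {a : R → J → S} {F : Finset S} {G : Finset R} {Zs : X → Finset (R × J)}
  {pat : X → J → {s // s ∈ F} ⊕ J} {b : ℕ}

theorem Plan.init [Nonempty R] (h : Plan a F G Zs pat b) :
    ∃ T, State a F G Zs pat ∅ T := by
  classical
  let T : X → J → R := fun x j =>
    if hx : ∃ e ∈ Zs x, e.2 = j then hx.choose.1 else Classical.arbitrary R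
  have hpre : ∀ x, ∀ e ∈ Zs x, T x e.2 = e.1 := by
    intro x e he
    have hx : ∃ e' ∈ Zs x, e'.2 = e.2 := ⟨e, he, rfl⟩
    simp only [T, dif_pos hx]
    have := h.cols x _ hx.choose_spec.1 e he hx.choose_spec.2
    rw [this]
  refine ⟨T, hpre, by simp, by simp, ?_, ?_⟩
  · intro x j hj j' hj' hT
    rw [empty_union, mem_image] at hj hj'
    obtain ⟨e, he, rfl⟩ := hj
    obtain ⟨e', he', rfl⟩ := hj'
    rw [hpre x e he, hpre x e' he'] at hT
    rw [h.rows x e he e' he' hT]
  · intro x j hj j' hj' hT
    rw [empty_union, mem_image] at hj hj'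
    obtain ⟨e, he, rfl⟩ := hj
    obtain ⟨e', he', rfl⟩ := hj'
    rw [hpre x e he, hpre x e' he'] at hT
    rw [h.syms x e he e' he' hT]

/-- If each element of `Y` has a witness in `D` from which it can be recovered, `|Y| ≤ |D|`. -/
theorem card_le_of_witness {Y D : Type*} [DecidableEq D] (A : Finset Y) (B : Finset D)
    (w : Y → D → Prop) (h1 : ∀ y ∈ A, ∃ d ∈ B, w y d)
    (h2 : ∀ y ∈ A, ∀ y' ∈ A, ∀ d ∈ B, w y d → w y' d → y = y') : A.card ≤ B.card := by
  classical
  rcases B.eq_empty_or_nonempty with rfl | ⟨d0, -⟩
  · rw [Finset.card_empty, Nat.le_zero, Finset.card_eq_zero, Finset.eq_empty_iff_forall_notMem]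
    intro y hy
    obtain ⟨d, hd, -⟩ := h1 y hy
    simp at hd
  · have : Nonempty D := ⟨d0⟩
    choose! f hf using h1
    apply Finset.card_le_card_of_injOn f
    · intro y hy
      exact (hf y hy).1
    · intro y hy y' hy' hyy
      have h3 := (hf y' hy').2
      rw [← hyy] at h3
      exact h2 y hy y' hy' (f y) (hf y hy).1 (hf y hy).2 h3

/-- Extending the state by one column. -/
theorem Plan.step [Nonempty R] (h : Plan a F G Zs pat b) (D : Finset J) (j0 : J) (hj0 : j0 ∉ D)
    (hmax : ∀ j ∈ D, rho a F G j ≤ rho a F G j0) (T : X → J → R)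
    (hT : State a F G Zs pat D T) : ∃ T', State a F G Zs pat (insert j0 D) T' := by
  classical
  have hnpos : 0 < Fintype.card J := Fintype.card_pos_iff.mpr ⟨j0⟩
  let act : X → Finset J := fun x => D ∪ (Zs x).image Prod.snd
  let blk : X → R → Prop := fun x r => ∃ j ∈ act x, T x j = r ∨ a (T x j) j = a r j0
  have hcardD : D.card ≤ Fintype.card J - 1 := by
    have : D ⊆ Finset.univ.erase j0 := by
      intro j hj
      rw [mem_erase]
      exact ⟨fun hh => hj0 (hh ▸ hj), mem_univ _⟩
    have := Finset.card_le_card this
    rwa [Finset.card_erase_of_mem (mem_univ _), Finset.card_univ] at this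
  have hactcard : ∀ x, (∀ e ∈ Zs x, e.2 ≠ j0) → (act x).card ≤ Fintype.card J - 1 := by
    intro x hx
    have : act x ⊆ Finset.univ.erase j0 := by
      intro j hj
      rw [mem_erase]
      refine ⟨?_, mem_univ _⟩
      rintro rfl
      simp only [act, mem_union, mem_image] at hj
      rcases hj with hj | ⟨e, he, he2⟩
      · exact hj0 hj
      · exact hx e he he2
    have := Finset.card_le_card this
    rwa [Finset.card_erase_of_mem (mem_univ _), Finset.card_univ] at this
  -- a column of `act x` is either a column of `Zs x`, or in `D` and not one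
  have hact : ∀ x j, j ∈ act x → (∃ e ∈ Zs x, e.2 = j) ∨ (j ∈ D ∧ ∀ e ∈ Zs x, e.2 ≠ j) := by
    intro x j hj
    by_cases hh : ∃ e ∈ Zs x, e.2 = j
    · exact Or.inl hh
    · right
      push Not at hh
      simp only [act, mem_union, mem_image] at hj
      rcases hj with hj | ⟨e, he, he2⟩
      · exact ⟨hj, hh⟩
      · exact absurd he2 (hh e he)
  -- number of slots using the row `r ∈ G`
  have hrow2 : ∀ (A : Finset X) (r : R), r ∈ G → (A.filter (fun x => ∃ j ∈ act x, T x j = r)).card
      ≤ Fintype.card J - 1 := by
    intro A r hr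
    refine le_trans (card_le_of_witness _ D
      (fun x j => (∀ e ∈ Zs x, e.2 ≠ j) ∧ T x j = r) ?_ ?_) hcardD
    · intro x hx
      rw [mem_filter] at hx
      obtain ⟨j, hj, hjr⟩ := hx.2
      rcases hact x j hj with ⟨e, he, rfl⟩ | ⟨hjD, hjZ⟩
      · rw [hT.pre x e he] at hjr
        exact absurd (hjr ▸ hr) (h.row x e he)
      · exact ⟨j, hjD, hjZ, hjr⟩
    · intro x _ x' _ j hj hx hx'
      exact hT.inj j hj x x' hx.1 hx'.1 (hx.2.trans hx'.2.symm)
  have hex : ∀ y : {s // s ∈ F} ⊕ J, ∃ f : X → R,
      (∀ x ∈ Finset.univ.filter (fun x => (∀ e ∈ Zs x, e.2 ≠ j0) ∧ pat x j0 = y),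
        f x ∈ G.filter (fun r => ty a F r j0 = y) ∧ ¬ blk x (f x)) ∧
      Set.InjOn f (Finset.univ.filter (fun x => (∀ e ∈ Zs x, e.2 ≠ j0) ∧ pat x j0 = y) :
        Finset X) := by
    intro y
    set A : Finset X := Finset.univ.filter (fun x => (∀ e ∈ Zs x, e.2 ≠ j0) ∧ pat x j0 = y) with hA
    set C : Finset R := G.filter (fun r => ty a F r j0 = y) with hC
    have hAC : A.card ≤ C.card := h.use j0 y
    rcases A.eq_empty_or_nonempty with hAe | ⟨x0, hx0⟩
    · rw [hAe]
      exact ⟨fun _ => Classical.arbitrary R, by simp, by simp⟩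
    have hCpos : 0 < C.card := lt_of_lt_of_le (Finset.card_pos.mpr ⟨x0, hx0⟩) hAC
    rcases y with s | j'
    · -- a single symbol
      have hCmu : C.card = mu a G j0 s.1 := by
        unfold mu
        rw [hC]
        congr 1
        apply Finset.filter_congr
        intro r _
        exact ty_eq_inl
      have h2n : 2 * Fintype.card J ≤ C.card := by
        rcases h.hmu j0 s.1 s.2 with h0 | h0
        · omega
        · omega
      -- the symbol part of `blk` never applies
      have hnosym : ∀ x ∈ A, ∀ r ∈ C, ∀ j ∈ act x, a (T x j) j ≠ a r j0 := by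
        intro x hx r hr j hj hcon
        rw [hA, mem_filter] at hx
        rw [hC, mem_filter, ty_eq_inl] at hr
        rw [hr.2] at hcon
        rcases hact x j hj with ⟨e, he, rfl⟩ | ⟨hjD, hjZ⟩
        · rw [hT.pre x e he] at hcon
          rcases h.compat x e he j0 hx.2.1 with hc | hc
          · apply hc
            rw [hx.2.2, ty_eq_inl]
            exact hcon
          · apply hc
            rw [hcon]
            exact s.2
        · have h1 := (hT.mem x j hjD hjZ).2
          have h2 : ty a F (T x j) j = Sum.inl s := ty_eq_inl.mpr hcon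
          rw [h2, ← hx.2.2] at h1
          have := h.pat_inj x h1
          exact hj0 (this ▸ hjD)
      apply exists_injOn_avoid A C blk (Fintype.card J - 1) (Fintype.card J - 1)
      · intro x hx
        have hx' := hx
        rw [hA, mem_filter] at hx'
        calc (C.filter (fun c => blk x c)).card ≤ ((act x).image (T x)).card := by
              apply Finset.card_le_card
              intro r hr
              rw [mem_filter] at hr
              obtain ⟨j, hj, hjr | hjr⟩ := hr.2
              · rw [mem_image]
                exact ⟨j, hj, hjr⟩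
              · exact absurd hjr (hnosym x hx r hr.1 j hj)
          _ ≤ (act x).card := Finset.card_image_le
          _ ≤ _ := hactcard x hx'.2.1
      · intro r hr
        have hr' := hr
        rw [hC, mem_filter] at hr'
        refine le_trans (Finset.card_le_card ?_) (hrow2 A r hr'.1)
        intro x hx
        rw [mem_filter] at hx ⊢
        refine ⟨hx.1, ?_⟩
        obtain ⟨j, hj, hjr | hjr⟩ := hx.2
        · exact ⟨j, hj, hjr⟩
        · exact absurd hjr (hnosym x hx.1 r hr j hj)
      · exact hAC
      · omega
    · -- light cells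
      have hjj : j' = j0 := by
        rw [Finset.card_pos] at hCpos
        obtain ⟨r, hr⟩ := hCpos
        rw [hC, mem_filter, ty_eq_inr] at hr
        exact hr.2.2.symm
      subst hjj
      have hCrho : C.card = rho a F G j' := by
        unfold rho
        rw [hC]
        congr 1
        apply Finset.filter_congr
        intro r _
        rw [ty_eq_inr]
        simp
      set w : ℕ := C.card / (4 * Fintype.card J) with hw
      have hw4 : 4 * Fintype.card J * w ≤ C.card := Nat.mul_div_le _ _
      have hmuw : ∀ j ∈ insert j' D, ∀ s ∉ F, mu a G j s ≤ w := by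
        intro j hj s hs
        rw [hw, Nat.le_div_iff_mul_le (by omega)]
        have hle : rho a F G j ≤ C.card := by
          rw [hCrho]
          rw [mem_insert] at hj
          rcases hj with rfl | hj
          · exact le_rfl
          · exact hmax j hj
        rcases h.hrho j with h0 | h0
        · have : mu a G j s ≤ rho a F G j := by
            unfold mu rho
            apply Finset.card_le_card
            intro r hr
            rw [mem_filter] at hr ⊢
            exact ⟨hr.1, by rw [hr.2]; exact hs⟩
          have : mu a G j s = 0 := by omega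
          rw [this]
          simp
        · have := h0.2 s hs
          rw [mul_comm]
          omega
      have h4n : 4 * Fintype.card J ≤ C.card := by
        rcases h.hrho j' with h0 | h0
        · omega
        · omega
      set bb : ℕ := if (∃ x ∈ A, (Zs x).Nonempty) then b else 0 with hbb
      have hbbC : 4 * Fintype.card J + 2 * bb ≤ C.card := by
        rw [hbb]
        split_ifs with hc
        · obtain ⟨x, hx, hxZ⟩ := hc
          rw [hA, mem_filter] at hx
          rw [hCrho]
          exact h.hbig x j' hxZ hx.2.1 hx.2.2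
        · omega
      apply exists_injOn_avoid A C blk ((Fintype.card J - 1) + (Fintype.card J - 1) * w)
        ((Fintype.card J - 1) + (Fintype.card J - 1) * w + bb)
      · intro x hx
        have hx' := hx
        rw [hA, mem_filter] at hx'
        calc (C.filter (fun c => blk x c)).card ≤ ((act x).image (T x) ∪
              (act x).biUnion (fun j => C.filter (fun r => a r j' = a (T x j) j))).card := by
              apply Finset.card_le_card
              intro r hr
              rw [mem_filter] at hr
              rw [mem_union, mem_image, mem_biUnion]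
              obtain ⟨j, hj, hjr | hjr⟩ := hr.2
              · exact Or.inl ⟨j, hj, hjr⟩
              · right
                refine ⟨j, hj, ?_⟩
                rw [mem_filter]
                exact ⟨hr.1, hjr.symm⟩
          _ ≤ ((act x).image (T x)).card +
              ((act x).biUnion (fun j => C.filter (fun r => a r j' = a (T x j) j))).card :=
              Finset.card_union_le _ _
          _ ≤ (act x).card + (act x).card * w := by
              gcongr
              · exact Finset.card_image_le
              · apply Finset.card_biUnion_le_card_mul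
                intro j _
                by_cases hs : a (T x j) j ∈ F
                · rw [Finset.card_eq_zero.mpr]
                  · exact Nat.zero_le _
                  · rw [Finset.eq_empty_iff_forall_notMem]
                    intro r hr
                    rw [mem_filter, hC, mem_filter, ty_eq_inr] at hr
                    apply hr.1.2.1
                    rw [hr.2]
                    exact hs
                · refine le_trans (Finset.card_le_card ?_)
                    (hmuw j' (mem_insert_self _ _) (a (T x j) j) hs)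
                  intro r hr
                  rw [mem_filter, hC, mem_filter] at hr
                  rw [mem_filter]
                  exact ⟨hr.1.1, hr.2⟩
          _ ≤ _ := by
              have := hactcard x hx'.2.1
              gcongr
      · intro r hr
        have hr' := hr
        rw [hC, mem_filter, ty_eq_inr] at hr'
        calc (A.filter (fun x => blk x r)).card ≤
              ((A.filter (fun x => ∃ j ∈ act x, T x j = r)) ∪
              (D.biUnion (fun j => A.filter (fun x => (∀ e ∈ Zs x, e.2 ≠ j) ∧
                a (T x j) j = a r j'))) ∪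
              (A.filter (fun x => ∃ e ∈ Zs x, a e.1 e.2 = a r j'))).card := by
              apply Finset.card_le_card
              intro x hx
              rw [mem_filter] at hx
              rw [mem_union, mem_union]
              obtain ⟨j, hj, hjr | hjr⟩ := hx.2
              · exact Or.inl (Or.inl (mem_filter.mpr ⟨hx.1, j, hj, hjr⟩))
              · rcases hact x j hj with ⟨e, he, rfl⟩ | ⟨hjD, hjZ⟩
                · right
                  refine mem_filter.mpr ⟨hx.1, e, he, ?_⟩
                  rw [← hT.pre x e he]
                  exact hjr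
                · left; right
                  exact mem_biUnion.mpr ⟨j, hjD, mem_filter.mpr ⟨hx.1, hjZ, hjr⟩⟩
          _ ≤ (A.filter (fun x => ∃ j ∈ act x, T x j = r)).card +
              (D.biUnion (fun j => A.filter (fun x => (∀ e ∈ Zs x, e.2 ≠ j) ∧
                a (T x j) j = a r j'))).card +
              (A.filter (fun x => ∃ e ∈ Zs x, a e.1 e.2 = a r j')).card := by
              refine (Finset.card_union_le _ _).trans ?_
              gcongr
              exact Finset.card_union_le _ _
          _ ≤ (Fintype.card J - 1) + (Fintype.card J - 1) * w + bb := by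
              have e1 := hrow2 A r hr'.1
              have e2 : (D.biUnion (fun j => A.filter (fun x => (∀ e ∈ Zs x, e.2 ≠ j) ∧
                a (T x j) j = a r j'))).card ≤ (Fintype.card J - 1) * w := by
                refine le_trans (Finset.card_biUnion_le_card_mul _ _ w ?_)
                  (Nat.mul_le_mul_right _ hcardD)
                intro j hjD
                refine le_trans ?_ (hmuw j (mem_insert_of_mem hjD) (a r j') hr'.2.1)
                unfold mu
                apply Finset.card_le_card_of_injOn (fun x => T x j)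
                · intro x hx
                  have hx1 := (mem_filter.mp (mem_coe.mp hx)).2
                  rw [mem_coe, mem_filter]
                  exact ⟨(hT.mem x j hjD hx1.1).1, hx1.2⟩
                · intro x hx x' hx' hxx
                  have hx1 := (mem_filter.mp (mem_coe.mp hx)).2
                  have hx1' := (mem_filter.mp (mem_coe.mp hx')).2
                  exact hT.inj j hjD x x' hx1.1 hx1'.1 hxx
              have e3 : (A.filter (fun x => ∃ e ∈ Zs x, a e.1 e.2 = a r j')).card ≤ bb := by
                rw [hbb]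
                split_ifs with hc
                · refine le_trans (Finset.card_le_card ?_) (h.hsym (a r j'))
                  intro x hx
                  rw [mem_filter] at hx ⊢
                  exact ⟨mem_univ _, hx.2⟩
                · rw [Nat.le_zero, Finset.card_eq_zero, Finset.eq_empty_iff_forall_notMem]
                  intro x hx
                  rw [mem_filter] at hx
                  obtain ⟨hxA, e, he, -⟩ := hx
                  exact hc ⟨x, hxA, ⟨e, he⟩⟩
              omega
      · exact hAC
      · have e1 : (Fintype.card J - 1) * w ≤ Fintype.card J * w :=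
          Nat.mul_le_mul_right _ (by omega)
        have e2 : 4 * Fintype.card J * w = 4 * (Fintype.card J * w) := by ring
        omega
  choose f hf hfinj using hex
  let T' : X → J → R := fun x j =>
    if j = j0 then (if (∀ e ∈ Zs x, e.2 ≠ j0) then f (pat x j0) x else T x j0) else T x j
  have hT'old : ∀ x j, j ≠ j0 → T' x j = T x j := by
    intro x j hj
    simp only [T', if_neg hj]
  have hT'in : ∀ x, (∃ e ∈ Zs x, e.2 = j0) → T' x j0 = T x j0 := by
    intro x hx
    have : ¬ (∀ e ∈ Zs x, e.2 ≠ j0) := by
      push Not
      exact hx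
    simp only [T', if_true, if_neg this]
  have hT'new : ∀ x, (∀ e ∈ Zs x, e.2 ≠ j0) → T' x j0 = f (pat x j0) x := by
    intro x hx
    simp only [T', if_true, if_pos hx]
  have hfx : ∀ x, (∀ e ∈ Zs x, e.2 ≠ j0) → (T' x j0 ∈ G ∧ ty a F (T' x j0) j0 = pat x j0) ∧
      ¬ blk x (T' x j0) := by
    intro x hx
    have := hf (pat x j0) x (by rw [mem_filter]; exact ⟨mem_univ _, hx, rfl⟩)
    rw [hT'new x hx]
    rw [mem_filter] at this
    exact this
  have hcase : ∀ x j, j ∈ insert j0 D ∪ (Zs x).image Prod.snd →
      (j = j0 ∧ (∀ e ∈ Zs x, e.2 ≠ j0)) ∨ (j ∈ act x ∧ T' x j = T x j) := by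
    intro x j hj
    rw [mem_union, mem_insert] at hj
    by_cases hjj : j = j0
    · subst hjj
      by_cases hx : ∀ e ∈ Zs x, e.2 ≠ j
      · exact Or.inl ⟨rfl, hx⟩
      · push Not at hx
        right
        refine ⟨?_, hT'in x hx⟩
        simp only [act, mem_union, mem_image]
        exact Or.inr hx
    · right
      refine ⟨?_, hT'old x j hjj⟩
      simp only [act, mem_union]
      rcases hj with (hj | hj) | hj
      · exact absurd hj hjj
      · exact Or.inl hj
      · exact Or.inr hj
  refine ⟨T', ?_, ?_, ?_, ?_, ?_⟩
  · intro x e he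
    by_cases hj : e.2 = j0
    · rw [hj, hT'in x ⟨e, he, hj⟩, ← hj]
      exact hT.pre x e he
    · rw [hT'old x _ hj]
      exact hT.pre x e he
  · intro x j hj hx
    by_cases hjj : j = j0
    · subst hjj
      exact (hfx x hx).1
    · rw [mem_insert] at hj
      rcases hj with hj | hj
      · exact absurd hj hjj
      · rw [hT'old x j hjj]
        exact hT.mem x j hj hx
  · intro j hj x x' hx hx' hTT
    by_cases hjj : j = j0
    · subst hjj
      have h1 := (hfx x hx).1.2
      have h2 := (hfx x' hx').1.2
      rw [hTT, h2] at h1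
      rw [hT'new x hx, hT'new x' hx', h1] at hTT
      apply hfinj (pat x j) ?_ ?_ hTT
      · rw [mem_coe, mem_filter]
        exact ⟨mem_univ _, hx, rfl⟩
      · rw [mem_coe, mem_filter]
        exact ⟨mem_univ _, hx', h1⟩
    · rw [mem_insert] at hj
      rcases hj with hj | hj
      · exact absurd hj hjj
      · rw [hT'old x j hjj, hT'old x' j hjj] at hTT
        exact hT.inj j hj x x' hx hx' hTT
  · intro x j hj j' hj' hTT
    rcases hcase x j hj with ⟨rfl, hx⟩ | ⟨hja, hjT⟩ <;>
      rcases hcase x j' hj' with ⟨rfl, hx'⟩ | ⟨hja', hjT'⟩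
    · rfl
    · exfalso
      apply (hfx x hx).2
      refine ⟨j', hja', Or.inl ?_⟩
      rw [hTT, hjT']
    · exfalso
      apply (hfx x hx').2
      refine ⟨j, hja, Or.inl ?_⟩
      rw [← hTT, hjT]
    · rw [hjT, hjT'] at hTT
      exact hT.rows x j hja j' hja' hTT
  · intro x j hj j' hj' hTT
    rcases hcase x j hj with ⟨rfl, hx⟩ | ⟨hja, hjT⟩ <;>
      rcases hcase x j' hj' with ⟨rfl, hx'⟩ | ⟨hja', hjT'⟩
    · rfl
    · exfalso
      apply (hfx x hx).2
      refine ⟨j', hja', Or.inr ?_⟩
      rw [hTT, hjT']
    · exfalso
      apply (hfx x hx').2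
      refine ⟨j, hja, Or.inr ?_⟩
      rw [← hTT, hjT]
    · rw [hjT, hjT'] at hTT
      exact hT.syms x j hja j' hja' hTT

/-- The assembly theorem. -/
theorem Plan.assemble [Nonempty R] (h : Plan a F G Zs pat b) :
    ∃ T : X → J → R, (∀ x, Function.Injective (T x)) ∧
      (∀ x, Function.Injective (fun j => a (T x j) j)) ∧
      (∀ j, Function.Injective (fun x => T x j)) := by
  classical
  have key : ∀ D : Finset J, ∃ T, State a F G Zs pat D T := by
    intro D
    induction D using Finset.induction_on_max_value (rho a F G) with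
    | empty => exact h.init
    | insert j0 D hj0 hmax ih =>
      obtain ⟨T, hT⟩ := ih
      exact h.step D j0 hj0 hmax T hT
  obtain ⟨T, hT⟩ := key Finset.univ
  refine ⟨T, ?_, ?_, ?_⟩
  · intro x j j' hjj
    exact hT.rows x j (by simp) j' (by simp) hjj
  · intro x j j' hjj
    exact hT.syms x j (by simp) j' (by simp) hjj
  · intro j x x' hxx
    have hxx' : T x j = T x' j := hxx
    by_cases hx : ∀ e ∈ Zs x, e.2 ≠ j
    · by_cases hx' : ∀ e ∈ Zs x', e.2 ≠ j
      · exact hT.inj j (mem_univ _) x x' hx hx' hxx'
      · push Not at hx'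
        obtain ⟨e, he, rfl⟩ := hx'
        have h1 := (hT.mem x e.2 (mem_univ _) hx).1
        rw [hxx', hT.pre x' e he] at h1
        exact absurd h1 (h.row x' e he)
    · push Not at hx
      obtain ⟨e, he, rfl⟩ := hx
      by_cases hx' : ∀ e' ∈ Zs x', e'.2 ≠ e.2
      · have h1 := (hT.mem x' e.2 (mem_univ _) hx').1
        rw [← hxx', hT.pre x e he] at h1
        exact absurd h1 (h.row x e he)
      · push Not at hx'
        obtain ⟨e', he', hee⟩ := hx'
        have h1 := hT.pre x e he
        have h2 := hT.pre x' e' he'
        rw [hee, ← hxx', h1] at h2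
        have : e = e' := Prod.ext h2 hee.symm
        subst this
        exact h.disj x x' e he he'

end Pool.Agent.DisjTrans
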