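import Pool.Agent.DisjTrans.Basic
import Pool.Agent.DisjTrans.Walkers
import Pool.Agent.DisjTrans.Structure
import Pool.Agent.DisjTrans.Assemble

/-!
The combinatorial core of the theorem on disjoint transversals for MP_884cd1_co.
-/

namespace Pool.Agent.DisjTrans

open Finset

set_option linter.unusedSectionVars false

variable {R J S : Type*} [Fintype R] [DecidableEq R] [Fintype J] [DecidableEq J] [DecidableEq S]

theorem ty_injective {a : R → J → S} {F : Finset S} {r : R} (ha : Function.Injective (a r)) :
    Function.Injective (ty a F r) := by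
  intro j j' h
  rcases hy : ty a F r j' with s | i
  · rw [hy, ty_eq_inl] at h
    rw [ty_eq_inl] at hy
    exact ha (h.trans hy.symm)
  · rw [hy, ty_eq_inr] at h
    rw [ty_eq_inr] at hy
    rw [h.2, hy.2]

/-- An injection of `J` into `A ⊕ J` extends to a permutation of `A ⊕ J`. -/
theorem exists_perm_extend {A : Type*} [Fintype A] [DecidableEq A] (f : J → A ⊕ J)
    (hf : Function.Injective f) : ∃ σ : Equiv.Perm (A ⊕ J), ∀ j, σ (Sum.inr j) = f j := by
  classical
  let e1 : {x : A ⊕ J // x ∈ Set.range (Sum.inr : J → A ⊕ J)} ≃ J :=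
    (Equiv.ofInjective (Sum.inr : J → A ⊕ J) Sum.inr_injective).symm
  let e2 : J ≃ {x : A ⊕ J // x ∈ Set.range f} := Equiv.ofInjective f hf
  let e : {x : A ⊕ J // x ∈ Set.range (Sum.inr : J → A ⊕ J)} ≃ {x : A ⊕ J // x ∈ Set.range f} :=
    e1.trans e2
  refine ⟨e.extendSubtype, ?_⟩
  intro j
  have hj : (Sum.inr j : A ⊕ J) ∈ Set.range (Sum.inr : J → A ⊕ J) := ⟨j, rfl⟩
  rw [Equiv.extendSubtype_apply_of_mem e (Sum.inr j) hj]
  have h1 : e1 ⟨Sum.inr j, hj⟩ = j := by
    simp only [e1]
    rw [Equiv.symm_apply_eq]
    rfl
  simp only [e, Equiv.trans_apply, h1]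
  rfl

theorem main_comb [Nonempty R] [Nonempty J] (a : R → J → S)
    (ha : ∀ r, Function.Injective (a r)) (F : Finset S) (G : Finset R)
    (hmu : ∀ j, ∀ s ∈ F, mu a G j s = 0 ∨ 2 * Fintype.card J ≤ mu a G j s)
    (hrho : ∀ j, rho a F G j = 0 ∨ (4 * Fintype.card J ≤ rho a F G j ∧
        ∀ s ∉ F, 4 * Fintype.card J * mu a G j s ≤ rho a F G j))
    (hsize : (F.card + Fintype.card J) ^ 2 *
      (((Fintype.card J + 1) * ((Gᶜ).card + 1) + 4 * Fintype.card J) - 1) < G.card) :
    ∃ T : Fin (Fintype.card R - (Fintype.card J - 1)) → J → R,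
      (∀ x, Function.Injective (T x)) ∧
      (∀ x, Function.Injective (fun j => a (T x j) j)) ∧
      (∀ j, Function.Injective (fun x => T x j)) := by
  classical
  obtain ⟨n', hn'⟩ : ∃ n', Fintype.card J = n' + 1 :=
    ⟨Fintype.card J - 1, (Nat.sub_add_cancel Fintype.card_pos).symm⟩
  set L : Finset R := Gᶜ with hL
  set l : ℕ := L.card with hl
  set N : ℕ := (Fintype.card J + 1) * (l + 1) + 4 * Fintype.card J with hN
  set κ : ℕ := n' * (l + 1) with hκ
  have hκN : κ ≤ N := by
    rw [hκ, hN, hn']
    nlinarith
  have hGR : G.card + l = Fintype.card R := by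
    rw [hl, hL]
    exact Finset.card_add_card_compl G
  -- extend the rows
  have hτ0 : ∀ r, ∃ σ : Equiv.Perm ({s // s ∈ F} ⊕ J), ∀ j, σ (Sum.inr j) = ty a F r j :=
    fun r => exists_perm_extend (ty a F r) (ty_injective (ha r))
  choose τ hτ using hτ0
  let M : ({s // s ∈ F} ⊕ J) → ({s // s ∈ F} ⊕ J) → ℕ :=
    fun x y => (G.filter (fun r => τ r x = y)).card
  have hMrow : ∀ x, ∑ y, M x y = G.card := by
    intro x
    exact (Finset.card_eq_sum_card_fiberwise (f := fun r => τ r x) (t := Finset.univ)
      (fun r _ => mem_coe.mpr (mem_univ _))).symm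
  have hMcol : ∀ y, ∑ x, M x y = G.card := by
    intro y
    have h1 := (Finset.card_eq_sum_card_fiberwise (s := G) (f := fun r => (τ r).symm y)
      (t := Finset.univ) (fun r _ => mem_coe.mpr (mem_univ _)))
    rw [h1]
    apply Finset.sum_congr rfl
    intro x _
    simp only [M]
    congr 1
    apply Finset.filter_congr
    intro r _
    rw [Equiv.symm_apply_eq]
    exact eq_comm
  have hcardty : Fintype.card ({s // s ∈ F} ⊕ J) = F.card + Fintype.card J := by
    rw [Fintype.card_sum, Fintype.card_coe]
  obtain ⟨c, hc⟩ := exists_heavy_perm M G.card N hMrow hMcol (by rw [hcardty]; exact hsize)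
  have hNG : N ≤ G.card := by
    have x0 : {s // s ∈ F} ⊕ J := Sum.inr (Classical.arbitrary J)
    refine (hc x0).trans ?_
    exact Finset.card_filter_le _ _
  have hκG : κ ≤ G.card := hκN.trans hNG
  set d : ℕ := G.card - κ with hd
  let M' : ({s // s ∈ F} ⊕ J) → ({s // s ∈ F} ⊕ J) → ℕ :=
    fun x y => M x y - (if c x = y then κ else 0)
  have hMM' : ∀ x y, M x y = M' x y + (if c x = y then κ else 0) := by
    intro x y
    simp only [M']
    split_ifs with h
    · have h1 := hc x
      rw [h] at h1
      omega
    · omega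
  have hM'row : ∀ x, ∑ y, M' x y = d := by
    intro x
    have h := hMrow x
    rw [Finset.sum_congr rfl (fun y _ => hMM' x y), Finset.sum_add_distrib] at h
    simp only [Finset.sum_ite_eq, mem_univ, if_true] at h
    omega
  have hM'col : ∀ y, ∑ x, M' x y = d := by
    intro y
    have h := hMcol y
    rw [Finset.sum_congr rfl (fun x _ => hMM' x y), Finset.sum_add_distrib] at h
    have h2 : ∑ x, (if c x = y then κ else 0) = κ := by
      rw [Finset.sum_eq_single (c.symm y)]
      · simp
      · intro b _ hb
        rw [if_neg]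
        intro hh
        apply hb
        rw [← hh]
        simp
      · simp
    omega
  obtain ⟨σ, hσ⟩ := exists_perm_decomp d M' hM'row hM'col
  -- the closed family
  let core : S → Option J := fun s =>
    if h : ∃ i, ∃ hs : s ∈ F, c (Sum.inr i) = Sum.inl ⟨s, hs⟩ then some h.choose else none
  have hcore : ∀ s i, core s = some i ↔ ∃ hs : s ∈ F, c (Sum.inr i) = Sum.inl ⟨s, hs⟩ := by
    intro s i
    constructor
    · intro hh
      by_cases h : ∃ i, ∃ hs : s ∈ F, c (Sum.inr i) = Sum.inl ⟨s, hs⟩
      · simp only [core, dif_pos h, Option.some.injEq] at hh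
        rw [← hh]
        exact h.choose_spec
      · simp only [core, dif_neg h] at hh
        simp at hh
    · rintro ⟨hs, hi⟩
      have h : ∃ i, ∃ hs : s ∈ F, c (Sum.inr i) = Sum.inl ⟨s, hs⟩ := ⟨i, hs, hi⟩
      simp only [core, dif_pos h, Option.some.injEq]
      obtain ⟨hs', hi'⟩ := h.choose_spec
      have := hi'.trans hi.symm
      have := c.injective this
      simpa using this
  obtain ⟨Z, hZc, hZL, hZdisj, hZcov⟩ := exists_closed_family (fun r v => core (a r v)) L (by
    intro r _ v v' i h1 h2
    rw [hcore] at h1 h2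
    obtain ⟨hs, h1⟩ := h1
    obtain ⟨hs', h2⟩ := h2
    have h3 := h1.symm.trans h2
    simp only [Sum.inl.injEq, Subtype.mk.injEq] at h3
    exact ha r h3)
  -- the slots
  let X := {p // p ∈ L ×ˢ (Finset.univ : Finset J)} ⊕ Fin d
  let Zs : X → Finset (R × J) := Sum.elim (fun p => Z p.1) (fun _ => ∅)
  let pat : X → J → {s // s ∈ F} ⊕ J :=
    Sum.elim (fun _ j => c (Sum.inr j)) (fun t j => σ t (Sum.inr j))
  have hplan : Plan a F G Zs pat l := by
    refine ⟨?_, ?_, ?_, ?_, ?_, ?_, ?_, ?_, hmu, hrho, ?_, ?_⟩
    · rintro (p | t) j j' h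
      · have := c.injective h
        simpa using this
      · have := (σ t).injective h
        simpa using this
    · rintro (p | t) e he
      · have := hZL p.1 e he
        rw [hL, mem_compl] at this
        exact this
      · simp [Zs] at he
    · rintro (p | t) e he e' he' h
      · exact (hZc p.1).rows e he e' he' h
      · simp [Zs] at he
    · rintro (p | t) e he e' he' h
      · exact (hZc p.1).cols e he e' he' h
      · simp [Zs] at he
    · rintro (p | t) e he e' he' h
      · apply (hZc p.1).tgt e he e' he'
        show core (a e.1 e.2) = core (a e'.1 e'.2)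
        rw [h]
      · simp [Zs] at he
    · rintro (p | t) (p' | t') e he he'
      · have := hZdisj p.1 p'.1 e he he'
        rw [Subtype.ext this]
      · simp [Zs] at he'
      · simp [Zs] at he
      · simp [Zs] at he
    · rintro (p | t) e he j hj
      · by_cases hF : a e.1 e.2 ∈ F
        · left
          intro hcon
          have hcon' : ty a F e.1 e.2 = c (Sum.inr j) := hcon
          have h1 : core (a e.1 e.2) = some j := by
            rw [hcore]
            refine ⟨hF, ?_⟩
            rw [← hcon', ty_eq_inl]
          obtain ⟨e', he', he2⟩ := (hZc p.1).cl e he j h1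
          exact hj e' he' he2
        · exact Or.inr hF
      · simp [Zs] at he
    · intro j y
      have hsplit : (Finset.univ.filter (fun x : X => (∀ e ∈ Zs x, e.2 ≠ j) ∧ pat x j = y)).card =
          (Finset.univ.filter (fun p : {p // p ∈ L ×ˢ (Finset.univ : Finset J)} =>
            (∀ e ∈ Z p.1, e.2 ≠ j) ∧ c (Sum.inr j) = y)).card +
          (Finset.univ.filter (fun t : Fin d => σ t (Sum.inr j) = y)).card := by
        rw [Finset.card_filter, Finset.card_filter, Finset.card_filter]
        rw [Fintype.sum_sum_type]
        congr 1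
        apply Finset.sum_congr rfl
        intro t _
        simp [Zs, pat]
      have hGM : (G.filter (fun r => ty a F r j = y)).card = M (Sum.inr j) y := by
        simp only [M]
        congr 1
        apply Finset.filter_congr
        intro r _
        rw [hτ]
      rw [hsplit, hGM, hMM' (Sum.inr j) y, ← hσ (Sum.inr j) y, add_comm]
      apply Nat.add_le_add_left
      by_cases hcy : c (Sum.inr j) = y
      · rw [if_pos hcy]
        have h1 := hZcov j
        have h2 : (Finset.univ.filter (fun p : {p // p ∈ L ×ˢ (Finset.univ : Finset J)} =>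
            (∀ e ∈ Z p.1, e.2 ≠ j) ∧ c (Sum.inr j) = y)).card =
            ((L ×ˢ (Finset.univ : Finset J)).filter (fun p => ¬ ∃ e ∈ Z p, e.2 = j)).card := by
          rw [← Finset.card_map (Function.Embedding.subtype _)]
          congr 1
          ext p
          simp only [mem_map, mem_filter, mem_univ, true_and, Function.Embedding.coe_subtype]
          constructor
          · rintro ⟨q, ⟨hq, -⟩, rfl⟩
            refine ⟨q.2, ?_⟩
            push Not
            exact hq
          · rintro ⟨hp, hp2⟩
            push Not at hp2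
            exact ⟨⟨p, hp⟩, ⟨hp2, hcy⟩, rfl⟩
        have h3 := Finset.card_filter_add_card_filter_not (s := L ×ˢ (Finset.univ : Finset J))
          (fun p => ∃ e ∈ Z p, e.2 = j)
        have h4 : (L ×ˢ (Finset.univ : Finset J)).card = l * (n' + 1) := by
          rw [Finset.card_product, Finset.card_univ, hn']
        rw [h2]
        rw [h4] at h3
        rw [hn'] at h1
        have h5 : l ≤ ((L ×ˢ (Finset.univ : Finset J)).filter
          (fun p => ∃ e ∈ Z p, e.2 = j)).card + n' := by
          simpa using h1
        rw [hκ]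
        have h6 : l * (n' + 1) = l * n' + l := by ring
        have h7 : n' * (l + 1) = l * n' + n' := by ring
        omega
      · rw [if_neg hcy, Nat.le_zero, Finset.card_eq_zero, Finset.eq_empty_iff_forall_notMem]
        intro p hp
        rw [mem_filter] at hp
        exact hcy hp.2.2
    · intro s
      apply card_le_of_witness _ L (fun x r => ∃ v, (r, v) ∈ Zs x ∧ a r v = s)
      · rintro (p | t) hx
        · rw [mem_filter] at hx
          obtain ⟨-, e, he, hes⟩ := hx
          exact ⟨e.1, hZL p.1 e he, e.2, he, hes⟩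
        · rw [mem_filter] at hx
          obtain ⟨-, e, he, hes⟩ := hx
          simp [Zs] at he
      · rintro (p | t) hx (p' | t') hx' r hr ⟨v, hv, hvs⟩ ⟨v', hv', hvs'⟩
        · have hvv : v = v' := ha r (hvs.trans hvs'.symm)
          subst hvv
          have := hZdisj p.1 p'.1 (r, v) hv hv'
          rw [Subtype.ext this]
        · simp [Zs] at hv'
        · simp [Zs] at hv
        · simp [Zs] at hv
    · rintro (p | t) j hne hcol hpat
      · have h1 : c (Sum.inr j) = Sum.inr j := hpat
        have h2 := hc (Sum.inr j)
        rw [h1] at h2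
        have h3 : M (Sum.inr j) (Sum.inr j) = rho a F G j := by
          simp only [M]
          unfold rho
          congr 1
          apply Finset.filter_congr
          intro r _
          rw [hτ, ty_eq_inr]
          simp
        rw [h3] at h2
        refine le_trans ?_ h2
        rw [hN, hn']
        nlinarith
      · simp [Zs] at hne
  obtain ⟨T, hT1, hT2, hT3⟩ := hplan.assemble
  have hcardX : Fintype.card X = Fintype.card R - (Fintype.card J - 1) := by
    simp only [X]
    rw [Fintype.card_sum, Fintype.card_coe, Fintype.card_fin, Finset.card_product,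
      Finset.card_univ, hn', ← hl, ← hGR, hd]
    have h6 : l * (n' + 1) = l * n' + l := by ring
    have h7 : κ = l * n' + n' := by rw [hκ]; ring
    rw [h6]
    omega
  have eX : Fin (Fintype.card R - (Fintype.card J - 1)) ≃ X :=
    (Fintype.equivFinOfCardEq hcardX).symm
  refine ⟨fun x => T (eX x), fun x => hT1 _, fun x => hT2 _, fun j x x' h => ?_⟩
  exact eX.injective (hT3 j h)

end Pool.Agent.DisjTrans
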