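import Mathlib

/-!
Numerical estimate for MP_884cd1_co.
-/

namespace Pool.Agent.DisjTrans

/-- With `g + l = m`, `m ≥ (10 n)^10` and the bound from the structure lemma, the size condition
of the main combinatorial theorem holds. -/
theorem size_estimate (n m f g l : ℕ) (hn : 1 ≤ n) (hm : (10 * n) ^ 10 ≤ m) (hg : g + l = m)
    (hb : 2 * (n : ℝ) ^ 2 * f + l ≤ 4 * (n : ℝ) ^ 2 +
        4 * (n : ℝ) ^ 3 * (4 * (n : ℝ) + 1) * Real.log ((m : ℝ) + 1)) :
    (f + n) ^ 2 * (((n + 1) * (l + 1) + 4 * n) - 1) < g := by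
  set x : ℝ := (n : ℝ) with hx
  set Λ : ℝ := Real.log ((m : ℝ) + 1) with hΛ
  have hx1 : 1 ≤ x := by
    rw [hx]
    exact_mod_cast hn
  have hmR : (10 * x) ^ 10 ≤ (m : ℝ) := by
    rw [hx]
    exact_mod_cast hm
  set w : ℝ := Real.exp (Λ / 10) with hw
  have hwpow : w ^ 10 = (m : ℝ) + 1 := by
    rw [hw, ← Real.exp_nat_mul]
    have : ((10 : ℕ) : ℝ) * (Λ / 10) = Λ := by
      push_cast
      ring
    rw [this, hΛ, Real.exp_log]
    positivity
  have hwpos : 0 < w := Real.exp_pos _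
  have hw10 : 10 * x ≤ w := by
    by_contra hcon
    push Not at hcon
    have : w ^ 10 < (10 * x) ^ 10 := pow_lt_pow_left₀ hcon hwpos.le (by norm_num)
    linarith
  have hΛpos : 0 ≤ Λ := by
    apply Real.log_nonneg
    have : (0 : ℝ) ≤ m := by positivity
    linarith
  have hΛw : Λ ^ 3 ≤ 27000 * w := by
    have h1 : Λ / 30 ≤ Real.exp (Λ / 30) := by
      have := Real.add_one_le_exp (Λ / 30)
      linarith
    have h2 : w = Real.exp (Λ / 30) ^ 3 := by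
      rw [hw, ← Real.exp_nat_mul]
      congr 1
      push_cast
      ring
    have h3 : (Λ / 30) ^ 3 ≤ Real.exp (Λ / 30) ^ 3 :=
      pow_le_pow_left₀ (by positivity) h1 3
    rw [h2]
    have h4 : Λ ^ 3 = 27000 * (Λ / 30) ^ 3 := by ring
    rw [h4]
    linarith
  -- `Λ` is at least `20`
  have hΛ20 : 20 ≤ Λ := by
    have h1 : (10 : ℝ) ≤ w := by linarith
    have h2 : Λ / 10 = Real.log w := by rw [hw, Real.log_exp]
    have h3 : (2 : ℝ) ≤ Real.log w := by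
      rw [Real.le_log_iff_exp_le hwpos]
      have h4 : Real.exp 2 = Real.exp 1 ^ 2 := by
        rw [← Real.exp_nat_mul]
        norm_num
      have h5 := Real.exp_one_lt_d9
      have h6 : Real.exp 1 ^ 2 ≤ 3 ^ 2 :=
        pow_le_pow_left₀ (Real.exp_pos 1).le (by linarith) 2
      rw [h4]
      linarith
    linarith
  have hx2 : x ≤ x ^ 2 := by nlinarith
  have hx4 : x ^ 2 ≤ x ^ 4 := by
    have : 1 ≤ x ^ 2 := one_le_pow₀ hx1
    nlinarith
  have hx34 : x ^ 3 ≤ x ^ 4 := by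
    have : 0 ≤ x ^ 3 := by positivity
    nlinarith
  -- main bound
  have hb2 : 2 * x ^ 2 * f + l ≤ 21 * x ^ 4 * Λ := by
    have h1 : 4 * x ^ 2 ≤ x ^ 4 * Λ := by nlinarith [mul_nonneg (by positivity : 0 ≤ x ^ 4) hΛpos]
    have h2 : 4 * x ^ 3 * (4 * x + 1) * Λ ≤ 20 * x ^ 4 * Λ := by
      apply mul_le_mul_of_nonneg_right _ hΛpos
      nlinarith
    linarith
  have hf : (f : ℝ) ≤ 10.5 * x ^ 2 * Λ := by
    have h1 : 2 * x ^ 2 * f ≤ 21 * x ^ 4 * Λ := by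
      have : (0 : ℝ) ≤ l := by positivity
      linarith
    have h2 : 2 * x ^ 2 * f ≤ 2 * x ^ 2 * (10.5 * x ^ 2 * Λ) := by
      calc 2 * x ^ 2 * f ≤ 21 * x ^ 4 * Λ := h1
        _ = 2 * x ^ 2 * (10.5 * x ^ 2 * Λ) := by ring
    exact le_of_mul_le_mul_left h2 (by positivity)
  have hl : (l : ℝ) ≤ 21 * x ^ 4 * Λ := by
    have : 0 ≤ 2 * x ^ 2 * (f : ℝ) := by positivity
    linarith
  have hK : (f : ℝ) + x ≤ 11 * x ^ 2 * Λ := by
    have : x ≤ 0.5 * x ^ 2 * Λ := by nlinarith [mul_nonneg (by positivity : 0 ≤ x ^ 2) hΛpos]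
    linarith
  have hN : (x + 1) * ((l : ℝ) + 1) + 4 * x ≤ 43 * x ^ 5 * Λ := by
    have h1 : (x + 1) * ((l : ℝ) + 1) ≤ 2 * x * (21 * x ^ 4 * Λ + 1) := by
      apply mul_le_mul (by linarith) (by linarith) (by positivity) (by positivity)
    have hx15 : x ≤ x ^ 5 := by
      have h5 : 1 ≤ x ^ 4 := one_le_pow₀ hx1
      calc x = x * 1 := by ring
        _ ≤ x * x ^ 4 := by
            apply mul_le_mul_of_nonneg_left h5 (by positivity)
        _ = x ^ 5 := by ring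
    have h2 : 6 * x ≤ x ^ 5 * Λ := by
      have h5 : 0 ≤ x ^ 5 := by positivity
      nlinarith
    calc (x + 1) * ((l : ℝ) + 1) + 4 * x ≤ 2 * x * (21 * x ^ 4 * Λ + 1) + 4 * x := by linarith
      _ = 42 * x ^ 5 * Λ + 6 * x := by ring
      _ ≤ 43 * x ^ 5 * Λ := by linarith
  have hprod : ((f : ℝ) + x) ^ 2 * ((x + 1) * ((l : ℝ) + 1) + 4 * x) ≤ 5203 * x ^ 9 * Λ ^ 3 := by
    calc ((f : ℝ) + x) ^ 2 * ((x + 1) * ((l : ℝ) + 1) + 4 * x)
        ≤ (11 * x ^ 2 * Λ) ^ 2 * (43 * x ^ 5 * Λ) := by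
          apply mul_le_mul _ hN (by positivity) (by positivity)
          exact pow_le_pow_left₀ (by positivity) hK 2
      _ = 5203 * x ^ 9 * Λ ^ 3 := by ring
  have hlast : 5203 * x ^ 9 * Λ ^ 3 + 21 * x ^ 4 * Λ < m := by
    have hx49 : x ^ 4 ≤ x ^ 9 := by
      have h5 : 1 ≤ x ^ 5 := one_le_pow₀ hx1
      calc x ^ 4 = x ^ 4 * 1 := by ring
        _ ≤ x ^ 4 * x ^ 5 := mul_le_mul_of_nonneg_left h5 (by positivity)
        _ = x ^ 9 := by ring
    have h1 : 21 * x ^ 4 * Λ ≤ x ^ 9 * Λ ^ 3 := by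
      have h2 : 21 * Λ ≤ Λ ^ 3 := by nlinarith [mul_nonneg hΛpos hΛpos]
      calc 21 * x ^ 4 * Λ = x ^ 4 * (21 * Λ) := by ring
        _ ≤ x ^ 9 * Λ ^ 3 := mul_le_mul hx49 h2 (by positivity) (by positivity)
    have h3 : x ^ 9 ≤ (w / 10) ^ 9 := pow_le_pow_left₀ (by positivity) (by linarith) 9
    have h4 : x ^ 9 * Λ ^ 3 ≤ (w / 10) ^ 9 * (27000 * w) :=
      mul_le_mul h3 hΛw (by positivity) (by positivity)
    have h5 : (w / 10) ^ 9 * (27000 * w) = 27 / 1000000 * w ^ 10 := by ring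
    rw [h5, hwpow] at h4
    have hm1 : (1 : ℝ) ≤ m := by
      have : (1 : ℝ) ≤ (10 * x) ^ 10 := one_le_pow₀ (by linarith)
      linarith
    linarith
  -- back to the naturals
  have hgR : (g : ℝ) = m - l := by
    have : (g : ℝ) + l = m := by exact_mod_cast hg
    linarith
  have hfin : (((f + n) ^ 2 * ((n + 1) * (l + 1) + 4 * n) : ℕ) : ℝ) < (g : ℝ) := by
    push_cast
    rw [← hx, hgR]
    linarith
  have hfin' : (f + n) ^ 2 * ((n + 1) * (l + 1) + 4 * n) < g := by exact_mod_cast hfin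
  refine lt_of_le_of_lt ?_ hfin'
  exact Nat.mul_le_mul_left _ (Nat.sub_le _ _)

end Pool.Agent.DisjTrans
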